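import Mathlib

/-!
# Project LW (helper242): embedding property of `𝔘_τ[F]`, `τ ∈ ∂𝔻`

Statements only.  Half-plane model: `τ = ∞`, `F` = real points `x 0 < … < x n`.
Every `S_…` below is a proposition to be proved in its own module.
-/

open Set Filter Topology Complex Metric

noncomputable section

namespace LW242

/-! ## 0. Basic definitions -/

/-- the open upper half-plane -/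
def Hp : Set ℂ := {z : ℂ | 0 < z.im}

/-- univalent self-map of the upper half-plane -/
def Uni (f : ℂ → ℂ) : Prop := DifferentiableOn ℂ f Hp ∧ MapsTo f Hp Hp ∧ InjOn f Hp

/-- Julia inequality: `f` sends the real boundary point `x` to `ξ` with dilation at most `C` -/
def Jul (f : ℂ → ℂ) (x ξ C : ℝ) : Prop :=
  ∀ z ∈ Hp, z.im * ‖f z - (ξ : ℂ)‖ ^ 2 ≤ C * (f z).im * ‖z - (x : ℂ)‖ ^ 2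

/-- non-tangential approach to infinity in the upper half-plane -/
def NTI (M : ℝ) : Filter ℂ :=
  comap (fun z : ℂ => ‖z‖) atTop ⊓ 𝓟 {z : ℂ | 0 < z.im ∧ ‖z‖ ≤ M * z.im}

/-! ## 1. Toolkit (helper242 proves these in `TK.lean`) -/

/-- Schwarz–Pick -/
def S_SP : Prop := ∀ h : ℂ → ℂ, DifferentiableOn ℂ h Hp → (∀ z ∈ Hp, 0 ≤ (h z).im) →
  ∀ z ∈ Hp, ∀ w ∈ Hp, ‖h z - h w‖ ^ 2 * z.im * w.im ≤ ‖z - w‖ ^ 2 * (h z).im * (h w).im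

/-- Julia–Wolff–Carathéodory at infinity -/
def S_JWC : Prop := ∀ h : ℂ → ℂ, DifferentiableOn ℂ h Hp → (∀ z ∈ Hp, 0 ≤ (h z).im) →
  ∃ c : ℝ, 0 ≤ c ∧ (∀ z ∈ Hp, c * z.im ≤ (h z).im) ∧
    ∀ M : ℝ, Tendsto (fun z => h z / z) (NTI M) (𝓝 (c : ℂ))

/-- Julia at a finite real point, along a sequence -/
def S_JFIN : Prop := ∀ (h : ℂ → ℂ) (x ξ C : ℝ) (w : ℕ → ℂ) (b : ℕ → ℝ),
  DifferentiableOn ℂ h Hp → (∀ z ∈ Hp, 0 ≤ (h z).im) → (∀ k, w k ∈ Hp) →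
  Tendsto w atTop (𝓝 (x : ℂ)) → Tendsto (fun k => h (w k)) atTop (𝓝 (ξ : ℂ)) →
  (∀ k, (h (w k)).im ≤ b k * (w k).im) → Tendsto b atTop (𝓝 C) → Jul h x ξ C

/-- Julia at infinity, along a sequence -/
def S_JINF : Prop := ∀ (h : ℂ → ℂ) (β : ℝ) (w : ℕ → ℂ),
  DifferentiableOn ℂ h Hp → (∀ z ∈ Hp, 0 ≤ (h z).im) → (∀ k, w k ∈ Hp) →
  Tendsto (fun k => ‖w k‖) atTop atTop → Tendsto (fun k => ‖h (w k)‖) atTop atTop →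
  Tendsto (fun k => ((h (w k)).im / ‖h (w k)‖ ^ 2) / ((w k).im / ‖w k‖ ^ 2)) atTop (𝓝 β) →
  ∀ z ∈ Hp, z.im ≤ β * (h z).im

/-- consequences of the Julia inequality: the pointwise bound -/
def S_JBD : Prop := ∀ (h : ℂ → ℂ) (x ξ C : ℝ), MapsTo h Hp Hp → Jul h x ξ C →
  0 < C ∧ (∀ z ∈ Hp, ‖h z - (ξ : ℂ)‖ ≤ C * (‖z - (x : ℂ)‖ ^ 2 / z.im)) ∧
  Tendsto (fun e : ℝ => h (x + e * I)) (𝓝[>] 0) (𝓝 (ξ : ℂ))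

/-- splitting of the dilation at a finite point -/
def S_SPLIT : Prop := ∀ (f g φ : ℂ → ℂ) (x ξ C : ℝ),
  DifferentiableOn ℂ f Hp → DifferentiableOn ℂ g Hp → MapsTo f Hp Hp → MapsTo g Hp Hp →
  (∀ z ∈ Hp, z.im ≤ (f z).im) → (∀ z ∈ Hp, z.im ≤ (g z).im) → (∀ z ∈ Hp, f (g z) = φ z) →
  Jul φ x ξ C → ∃ ζ C₁ C₂ : ℝ, 1 ≤ C₁ ∧ 1 ≤ C₂ ∧ C₁ * C₂ = C ∧ Jul g x ζ C₁ ∧ Jul f ζ ξ C₂

/-- the smallest constant in the Julia inequality at the fixed point `x` -/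
def dil (f : ℂ → ℂ) (x : ℝ) : ℝ :=
  sSup {r : ℝ | ∃ z ∈ Hp, r = z.im * ‖f z - (x : ℂ)‖ ^ 2 / ((f z).im * ‖z - (x : ℂ)‖ ^ 2)}

/-- univalent, `Im f ≥ Im`, and `x` is a boundary regular fixed point -/
def FixAdm (f : ℂ → ℂ) (x : ℝ) : Prop :=
  Uni f ∧ (∀ z ∈ Hp, z.im ≤ (f z).im) ∧ ∃ C : ℝ, Jul f x x C

def S_DIL : Prop := ∀ (f : ℂ → ℂ) (x : ℝ), FixAdm f x →
  1 ≤ dil f x ∧ Jul f x x (dil f x) ∧ (∀ C, Jul f x x C → dil f x ≤ C) ∧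
  (dil f x = 1 → ∀ z ∈ Hp, f z = z) ∧
  (∀ z ∈ Hp, ‖f z - z‖ ≤ (dil f x - 1) * (‖z - (x : ℂ)‖ ^ 2 / z.im)) ∧
  (∀ g, FixAdm g x → FixAdm (fun z => f (g z)) x ∧
    dil (fun z => f (g z)) x = dil f x * dil g x)

/-! ## 2. Maximum principle -/

def S_MAX : Prop := ∀ (S : ℂ → ℂ) (E : Set ℝ) (B : ℝ), E.Finite → DifferentiableOn ℂ S Hp →
  (∀ z ∈ Hp, ‖S z‖ ≤ B) →
  (∀ t : ℝ, t ∉ E → ∀ δ > 0, ∀ᶠ z in 𝓝[Hp] (t : ℂ), ‖S z‖ ≤ 1 + δ) →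
  ∀ z ∈ Hp, ‖S z‖ ≤ 1

/-! ## 3. Plane topology, Riemann mapping theorem (in the unit disc) -/

def S_RMT : Prop := ∀ W : Set ℂ, IsOpen W → IsConnected W → Bornology.IsBounded W →
  IsConnected Wᶜ → ∃ F : ℂ → ℂ, DifferentiableOn ℂ F (ball 0 1) ∧ InjOn F (ball 0 1) ∧
    F '' (ball 0 1) = W

def S_COMPL : Prop := ∀ F : ℂ → ℂ, DifferentiableOn ℂ F (ball 0 1) → InjOn F (ball 0 1) →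
  Bornology.IsBounded (F '' (ball 0 1)) → IsConnected (F '' (ball 0 1))ᶜ

def S_FILL : Prop := ∀ (D V : Set ℂ) (q : ℂ) (ρ : ℝ), IsOpen D → IsConnected D →
  D ⊆ ball 0 1 → IsConnected Dᶜ → IsOpen V → V ⊆ ball 0 1 → 0 < ρ → closedBall q ρ ⊆ V →
  q ∈ closure D → q ∉ D → closure V ∩ ball 0 1 ⊆ V ∪ D →
  ∃ W : Set ℂ, IsOpen W ∧ IsConnected W ∧ IsConnected Wᶜ ∧ D ∪ ball q ρ ⊆ W ∧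
    W ⊆ ball 0 1 ∧ W \ D ⊆ V ∧ W ≠ ball 0 1

/-- enlarging the image of a univalent map inside a prescribed region -/
def S_B0 : Prop := ∀ (f : ℂ → ℂ) (V : Set ℂ) (q : ℂ), Uni f → IsOpen V → V ⊆ Hp →
  (∀ p ∈ Hp, p ∈ closure V → p ∈ V ∨ p ∈ f '' Hp) → q ∈ V → q ∉ f '' Hp →
  q ∈ closure (f '' Hp) →
  ∃ F : ℂ → ℂ, Uni F ∧ f '' Hp ⊆ F '' Hp ∧ q ∈ F '' Hp ∧
    (∀ p ∈ F '' Hp, p ∉ f '' Hp → p ∈ V) ∧ F '' Hp ≠ Hp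

/-! ## 4. Normal families along an ultrafilter -/

def S_NF : Prop := ∀ F : ℕ → ℂ → ℂ, (∀ k, DifferentiableOn ℂ (F k) Hp) →
  (∀ z ∈ Hp, ∃ r > 0, ∃ B : ℝ, ∀ k, ∀ w ∈ ball z r, w ∈ Hp → ‖F k w‖ ≤ B) →
  ∃ G : ℂ → ℂ, DifferentiableOn ℂ G Hp ∧
    (∀ z ∈ Hp, Tendsto (fun k => F k z) (hyperfilter ℕ) (𝓝 (G z))) ∧
    (∀ z ∈ Hp, Tendsto (fun k => deriv (F k) z) (hyperfilter ℕ) (𝓝 (deriv G z))) ∧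
    (∀ z ∈ Hp, ∀ w : ℕ → ℂ, Tendsto w (hyperfilter ℕ) (𝓝 z) →
      Tendsto (fun k => F k (w k)) (hyperfilter ℕ) (𝓝 (G z))) ∧
    ((∀ k, InjOn (F k) Hp) → InjOn G Hp ∨ ∃ c : ℂ, ∀ z ∈ Hp, G z = c) ∧
    (∀ p : ℂ, (∀ᶠ k in (hyperfilter ℕ : Filter ℕ), p ∉ F k '' Hp) →
      p ∉ G '' Hp ∨ ∀ z ∈ Hp, G z = p)

/-! ## 5. Sides of a curve -/

/-- vertical ray above `x`, parametrised by `s ∈ (0,1)` -/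
def ray (x s : ℝ) : ℂ := (x : ℂ) + ((s / (1 - s) : ℝ) : ℂ) * I

def Mq (q w : ℂ) : ℂ := (w - q) / (w - (starRingEnd ℂ) q)

/-- the image curve of the vertical ray above `x` -/
def curve (g : ℂ → ℂ) (x : ℝ) : Set ℂ := g '' {z : ℂ | z.re = x ∧ 0 < z.im}

/-- `q` is to the right of the curve `g(ray x)`, which starts at `ζ` and ends at `∞` -/
def RtI (g : ℂ → ℂ) (x ζ : ℝ) (q : ℂ) : Prop :=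
  0 < q.im ∧ ∃ l : ℝ → ℂ, ContinuousOn l (Icc 0 1) ∧ l 1 = 0 ∧
    l 0 = ((2 * (q - (ζ : ℂ)).arg : ℝ) : ℂ) * I ∧
    ∀ s ∈ Ioo (0 : ℝ) 1, exp (l s) = Mq q (g (ray x s))

/-- `q` is to the left of the curve `g(ray x)` -/
def LtI (g : ℂ → ℂ) (x ζ : ℝ) (q : ℂ) : Prop :=
  0 < q.im ∧ ∃ l : ℝ → ℂ, ContinuousOn l (Icc 0 1) ∧ l 1 = 0 ∧
    l 0 = ((2 * (q - (ζ : ℂ)).arg - 2 * Real.pi : ℝ) : ℂ) * I ∧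
    ∀ s ∈ Ioo (0 : ℝ) 1, exp (l s) = Mq q (g (ray x s))

/-- `g` univalent, `Im g ≥ Im`, `g` sends `x` to `ζ` -/
def Adm (g : ℂ → ℂ) (x ζ : ℝ) : Prop :=
  Uni g ∧ (∀ z ∈ Hp, z.im ≤ (g z).im) ∧ ∃ A : ℝ, Jul g x ζ A

def S_IDXa : Prop := ∀ (g : ℂ → ℂ) (x ζ : ℝ), Adm g x ζ →
  (∀ q, RtI g x ζ q → q ∉ curve g x) ∧ (∀ q, LtI g x ζ q → q ∉ curve g x) ∧
  (∀ q, RtI g x ζ q → ¬ LtI g x ζ q) ∧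
  (∀ q ∈ Hp, q ∉ curve g x → ∀ᶠ q' in 𝓝 q,
    (RtI g x ζ q' ↔ RtI g x ζ q) ∧ (LtI g x ζ q' ↔ LtI g x ζ q)) ∧
  (∀ t : ℝ, ζ < t → ∀ᶠ q in 𝓝[Hp] (t : ℂ), RtI g x ζ q) ∧
  (∀ t : ℝ, t < ζ → ∀ᶠ q in 𝓝[Hp] (t : ℂ), LtI g x ζ q) ∧
  (∀ ε : ℝ, 0 < ε → ∃ R : ℝ, ∀ q ∈ Hp, R ≤ ‖q‖ →
    (ε * ‖q‖ ≤ q.re → RtI g x ζ q) ∧ (q.re ≤ -(ε * ‖q‖) → LtI g x ζ q))

def S_IDXb : Prop :=
  (∀ (g : ℂ → ℂ) (x ζ : ℝ), Adm g x ζ →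
    (∀ u ∈ Hp, x < u.re → RtI g x ζ (g u)) ∧ (∀ u ∈ Hp, u.re < x → LtI g x ζ (g u)) ∧
    (∀ q ∈ Hp, q ∉ curve g x → RtI g x ζ q ∨ LtI g x ζ q)) ∧
  (∀ (f g φ : ℂ → ℂ) (x ζ ξ : ℝ), Adm g x ζ → Adm φ x ξ → Uni f →
    (∀ z ∈ Hp, f (g z) = φ z) → ∀ q ∈ Hp, q ∉ curve g x →
    (RtI g x ζ q ↔ RtI φ x ξ (f q)) ∧ (LtI g x ζ q ↔ LtI φ x ξ (f q))) ∧
  (∀ (g : ℂ → ℂ) (x x' ζ ζ' : ℝ), x < x' → Adm g x ζ → Adm g x' ζ' →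
    (∀ q, RtI g x' ζ' q → RtI g x ζ q) ∧ (∀ q, LtI g x ζ q → LtI g x' ζ' q))

/-- boundary values of `h` between two marked points -/
def S_CLU : Prop := ∀ (g g' h : ℂ → ℂ) (x₁ x₂ ζ₁ ζ₂ η₁ η₂ : ℝ),
  Adm g x₁ ζ₁ → Adm g x₂ ζ₂ → Adm g' x₁ η₁ → Adm g' x₂ η₂ → Uni h →
  (∀ z ∈ Hp, h (g z) = g' z) → (∀ M : ℝ, Tendsto (fun z => h z / z) (NTI M) (𝓝 1)) →
  (∀ q ∈ Hp, q ∉ h '' Hp → ¬ (RtI g' x₁ η₁ q ∧ LtI g' x₂ η₂ q)) →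
  ∀ t : ℝ, ζ₁ < t → t < ζ₂ → ∀ δ > 0, ∀ᶠ z in 𝓝[Hp] (t : ℂ),
    η₁ - δ < (h z).re ∧ (h z).re < η₂ + δ ∧ (h z).im < δ

/-- comparison of lengths -/
def S_LEN : Prop := ∀ (h : ℂ → ℂ) (a b a' b' : ℝ), DifferentiableOn ℂ h Hp → MapsTo h Hp Hp →
  (∀ M : ℝ, Tendsto (fun z => h z / z) (NTI M) (𝓝 1)) → a < b → a' ≤ b' →
  (∀ t : ℝ, a < t → t < b → ∀ δ > 0, ∀ᶠ z in 𝓝[Hp] (t : ℂ),
    a' - δ < (h z).re ∧ (h z).re < b' + δ ∧ (h z).im < δ) →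
  b - a ≤ b' - a'

/-! ## 6. Data -/

structure Base (n : ℕ) (φ : ℂ → ℂ) (c : ℝ) (x A : ℕ → ℝ) : Prop where
  uni : Uni φ
  mono : ∀ i j, i < j → j ≤ n → x i < x j
  one_le : 1 ≤ c
  im_ge : ∀ z ∈ Hp, c * z.im ≤ (φ z).im
  lim : Tendsto (fun y : ℝ => φ (y * I) / (y * I)) atTop (𝓝 (c : ℂ))
  jul : ∀ j ≤ n, Jul φ (x j) (x j) (A j)

structure Dat (n : ℕ) (φ : ℂ → ℂ) (c : ℝ) (x A : ℕ → ℝ) (f g : ℂ → ℂ) (ζ : ℕ → ℝ) : Prop where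
  f_uni : Uni f
  g_uni : Uni g
  comp : ∀ z ∈ Hp, f (g z) = φ z
  f_im : ∀ z ∈ Hp, z.im ≤ (f z).im
  g_im : ∀ z ∈ Hp, c * z.im ≤ (g z).im
  zero : ζ 0 = x 0
  g_jul : ∀ j ≤ n, Jul g (x j) (ζ j) (A j)
  f_jul : ∀ j ≤ n, Jul f (ζ j) (x j) (A j)

/-- every intermediate simply connected domain is the image of a datum -/
def S_R : Prop := ∀ (n : ℕ) (φ : ℂ → ℂ) (c : ℝ) (x A : ℕ → ℝ), Base n φ c x A →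
  ∀ F : ℂ → ℂ, Uni F → φ '' Hp ⊆ F '' Hp →
  ∃ (f g : ℂ → ℂ) (ζ : ℕ → ℝ), Dat n φ c x A f g ζ ∧ f '' Hp = F '' Hp

/-- transition map between two nested data -/
def S_O : Prop := ∀ (n : ℕ) (φ : ℂ → ℂ) (c : ℝ) (x A : ℕ → ℝ), Base n φ c x A →
  ∀ (f g : ℂ → ℂ) (ζ : ℕ → ℝ) (f' g' : ℂ → ℂ) (ζ' : ℕ → ℝ),
  Dat n φ c x A f g ζ → Dat n φ c x A f' g' ζ' → f '' Hp ⊆ f' '' Hp →
  ∃ h : ℂ → ℂ, Uni h ∧ (∀ z ∈ Hp, f' (h z) = f z) ∧ (∀ z ∈ Hp, h (g z) = g' z) ∧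
    (∀ z ∈ Hp, z.im ≤ (h z).im) ∧ ∀ M : ℝ, Tendsto (fun z => h z / z) (NTI M) (𝓝 1)

/-- size of the datum -/
def rho (g : ℂ → ℂ) : ℝ := ‖deriv g I‖ / (g I).im

def S_RHO : Prop := ∀ g h g' : ℂ → ℂ, Uni g → Uni h → (∀ z ∈ Hp, h (g z) = g' z) →
  rho g' ≤ rho g ∧ (rho g' = rho g → h '' Hp = Hp)

/-- compactness of the set of data -/
def S_K : Prop := ∀ (n : ℕ) (φ : ℂ → ℂ) (c : ℝ) (x A : ℕ → ℝ), Base n φ c x A →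
  ∀ (f g : ℕ → ℂ → ℂ) (ζ : ℕ → ℕ → ℝ), (∀ k, Dat n φ c x A (f k) (g k) (ζ k)) →
  ∃ (f' g' : ℂ → ℂ) (ζ' : ℕ → ℝ), Dat n φ c x A f' g' ζ' ∧
    (∀ j ≤ n, Tendsto (fun k => ζ k j) (hyperfilter ℕ) (𝓝 (ζ' j))) ∧
    Tendsto (fun k => rho (g k)) (hyperfilter ℕ) (𝓝 (rho g')) ∧
    (∀ p ∈ Hp, (∀ᶠ k in (hyperfilter ℕ : Filter ℕ), p ∉ f k '' Hp) → p ∉ f' '' Hp) ∧
    (∀ (f₁ g₁ : ℂ → ℂ) (ζ₁ : ℕ → ℝ), Dat n φ c x A f₁ g₁ ζ₁ →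
      (∀ᶠ k in (hyperfilter ℕ : Filter ℕ), f₁ '' Hp ⊆ f k '' Hp) → f₁ '' Hp ⊆ f' '' Hp)

/-- monotonicity of lengths -/
def S_M : Prop := ∀ (n : ℕ) (φ : ℂ → ℂ) (c : ℝ) (x A : ℕ → ℝ), Base n φ c x A →
  ∀ (f g : ℂ → ℂ) (ζ : ℕ → ℝ) (f' g' : ℂ → ℂ) (ζ' : ℕ → ℝ),
  Dat n φ c x A f g ζ → Dat n φ c x A f' g' ζ' → f '' Hp ⊆ f' '' Hp →
  ∀ j < n, (∀ p ∈ f' '' Hp, p ∉ f '' Hp →
    ¬ (RtI φ (x j) (x j) p ∧ LtI φ (x (j + 1)) (x (j + 1)) p)) →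
  ζ (j + 1) - ζ j ≤ ζ' (j + 1) - ζ' j

/-- existence of an outer obstacle when `c = 1` -/
def S_M3 : Prop := ∀ (n : ℕ) (φ : ℂ → ℂ) (x A : ℕ → ℝ), Base n φ 1 x A →
  (∀ p ∈ Hp, p ∉ φ '' Hp → ¬ LtI φ (x 0) (x 0) p ∧ ¬ RtI φ (x n) (x n) p) →
  ∀ z ∈ Hp, φ z = z

/-! ## 7. The semigroup; decompositions; chains -/

def Cls (n : ℕ) (x : ℕ → ℝ) (f : ℂ → ℂ) : Prop :=
  Uni f ∧ (∀ z ∈ Hp, z.im ≤ (f z).im) ∧ ∀ j ≤ n, ∃ C : ℝ, Jul f (x j) (x j) C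

/-- no indecomposable elements -/
def S_N : Prop := ∀ (n : ℕ) (x : ℕ → ℝ), (∀ i j, i < j → j ≤ n → x i < x j) →
  ∀ φ : ℂ → ℂ, Cls n x φ → (∃ z ∈ Hp, φ z ≠ z) →
  ∃ f g : ℂ → ℂ, Cls n x f ∧ Cls n x g ∧ (∀ z ∈ Hp, f (g z) = φ z) ∧
    (∃ z ∈ Hp, f z ≠ z) ∧ (∃ z ∈ Hp, g z ≠ z)

/-- an abstract lemma on maximal chains -/
def S_CHAIN : Prop := ∀ (α : Type) (le : α → α → Prop) (ℓ : α → ℝ) (b₀ b₁ : α),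
  (∀ p, le p p) → (∀ p q r, le p q → le q r → le p r) →
  (∀ p q, le p q → ℓ p ≤ ℓ q) → (∀ p q, le p q → ℓ p = ℓ q → le q p) →
  (∀ p, le b₀ p) → (∀ p, le p b₁) →
  (∀ p : ℕ → α, ∃ a : α, Tendsto (fun k => ℓ (p k)) (hyperfilter ℕ) (𝓝 (ℓ a)) ∧
    (∀ q, (∀ᶠ k in (hyperfilter ℕ : Filter ℕ), le q (p k)) → le q a) ∧
    (∀ q, (∀ᶠ k in (hyperfilter ℕ : Filter ℕ), le (p k) q) → le a q)) →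
  (∀ p q, le p q → ℓ p < ℓ q → ∃ r, le p r ∧ le r q ∧ ℓ p < ℓ r ∧ ℓ r < ℓ q) →
  ∃ P : ℝ → α, (∀ a ∈ Icc (ℓ b₀) (ℓ b₁), ℓ (P a) = a) ∧
    (∀ a ∈ Icc (ℓ b₀) (ℓ b₁), ∀ b ∈ Icc (ℓ b₀) (ℓ b₁), a ≤ b → le (P a) (P b))

/-- evolution family in the half-plane model, with `ψ 0 1 = φ` -/
def EvH (n : ℕ) (x : ℕ → ℝ) (φ : ℂ → ℂ) : Prop :=
  ∃ (ψ : ℝ → ℝ → ℂ → ℂ) (K : ℂ → ℝ),
    (∀ s t, 0 ≤ s → s ≤ t → Cls n x (ψ s t)) ∧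
    (∀ s, 0 ≤ s → ∀ z ∈ Hp, ψ s s z = z) ∧
    (∀ s u t, 0 ≤ s → s ≤ u → u ≤ t → ∀ z ∈ Hp, ψ s t z = ψ u t (ψ s u z)) ∧
    (∀ s u t, 0 ≤ s → s ≤ u → u ≤ t → ∀ z ∈ Hp, ‖ψ s u z - ψ s t z‖ ≤ K z * (t - u)) ∧
    (∀ z ∈ Hp, ψ 0 1 z = φ z)

def S_G : Prop := ∀ (n : ℕ) (x : ℕ → ℝ), (∀ i j, i < j → j ≤ n → x i < x j) →
  ∀ φ : ℂ → ℂ, Cls n x φ → (∃ z ∈ Hp, φ z ≠ z) → EvH n x φ

/-! ## 8. The disc -/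

/-- Stolz region of aperture `M` at the boundary point `σ` of the unit disc -/
def Stolz (σ : ℂ) (M : ℝ) : Set ℂ := {z : ℂ | ‖z‖ < 1 ∧ ‖z - σ‖ < M * (1 - ‖z‖)}

/-- angular (non-tangential) limit at `σ` -/
def AngLim (f : ℂ → ℂ) (σ l : ℂ) : Prop :=
  ∀ M : ℝ, 1 < M → Tendsto f (𝓝[Stolz σ M] σ) (𝓝 l)

/-- univalent self-maps of the unit disc -/
def UniD (φ : ℂ → ℂ) : Prop :=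
  DifferentiableOn ℂ φ (ball 0 1) ∧ MapsTo φ (ball 0 1) (ball 0 1) ∧ InjOn φ (ball 0 1)

/-- `σ` is a boundary regular fixed point with angular derivative `d` -/
def BRFPwith (φ : ℂ → ℂ) (σ d : ℂ) : Prop :=
  AngLim φ σ σ ∧ AngLim (fun z => (φ z - σ) / (z - σ)) σ d

/-- `σ` is a boundary regular fixed point -/
def BRFP (φ : ℂ → ℂ) (σ : ℂ) : Prop := ∃ d : ℂ, BRFPwith φ σ d

/-- `τ` is the Denjoy–Wolff point of `φ` (for `φ ≠ id`) -/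
def IsDW (φ : ℂ → ℂ) (τ : ℂ) : Prop :=
  (τ ∈ ball (0 : ℂ) 1 ∧ φ τ = τ) ∨
  (τ ∈ sphere (0 : ℂ) 1 ∧ (∀ z ∈ ball (0 : ℂ) 1, φ z ≠ z) ∧ ∃ d : ℝ, d ≤ 1 ∧ BRFPwith φ τ d)

/-- `φ` is the identity of the disc -/
def IsIdD (φ : ℂ → ℂ) : Prop := ∀ z ∈ ball (0 : ℂ) 1, φ z = z

/-- the semigroup `𝔘_τ[F]` -/
def UtF (F : Set ℂ) (τ : ℂ) (φ : ℂ → ℂ) : Prop :=
  IsIdD φ ∨ (¬ IsIdD φ ∧ UniD φ ∧ (∀ σ ∈ F, BRFP φ σ) ∧ IsDW φ τ)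

/-- evolution family in the disc -/
def IsEvo (ψ : ℝ → ℝ → ℂ → ℂ) : Prop :=
  (∀ s t, 0 ≤ s → s ≤ t → DifferentiableOn ℂ (ψ s t) (ball 0 1) ∧
    MapsTo (ψ s t) (ball 0 1) (ball 0 1)) ∧
  (∀ s, 0 ≤ s → ∀ z ∈ ball (0 : ℂ) 1, ψ s s z = z) ∧
  (∀ s u t, 0 ≤ s → s ≤ u → u ≤ t → ∀ z ∈ ball (0 : ℂ) 1, ψ s t z = ψ u t (ψ s u z)) ∧
  (∀ z ∈ ball (0 : ℂ) 1, ∀ T : ℝ, 0 < T → ∃ k : ℝ → ℝ, (∀ r, 0 ≤ k r) ∧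
    MeasureTheory.IntegrableOn k (Icc 0 T) ∧
    ∀ s u t, 0 ≤ s → s ≤ u → u ≤ t → t ≤ T →
      ‖ψ s u z - ψ s t z‖ ≤ ∫ r in u..t, k r)

/-- the embedding property of `𝔘_τ[F]` -/
def Embed (F : Set ℂ) (τ : ℂ) : Prop :=
  ∀ φ : ℂ → ℂ, UtF F τ φ → ¬ IsIdD φ →
    ∃ ψ : ℝ → ℝ → ℂ → ℂ, IsEvo ψ ∧ (∀ s t, 0 ≤ s → s ≤ t → UtF F τ (ψ s t)) ∧
      ∀ z ∈ ball (0 : ℂ) 1, ψ 0 1 z = φ z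

/-- transfer from the half-plane to the disc -/
def S_DISC : Prop := S_G → ∀ (F : Set ℂ) (τ : ℂ), F.Finite → F.Nonempty →
  F ⊆ sphere 0 1 → τ ∈ sphere (0 : ℂ) 1 → τ ∉ F → Embed F τ

end LW242
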