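import Pool.Agent.Y242.LW.NB
import Pool.Agent.Y405.LW.Max
import Pool.Agent.Y365.LW.RMT
import Pool.Agent.Y405.LW.Compl
import Pool.Agent.Y362.LW.Fill
import Pool.Agent.Y405.LW.B0
import Pool.Agent.Y458.LW.NF
import Pool.Agent.Y891.LW.IDXa
import Pool.Agent.Y362.LW.IdxB
import Pool.Agent.Y362.LW.Clu
import Pool.Agent.Y290.LW.Len
import Pool.Agent.Y389.LW.ORho
import Pool.Agent.Y367.LW.K
import Pool.Agent.Y389.LW.Chain
import Pool.Agent.Y350.LW.G
import Pool.Agent.Y448.LW.M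
import Pool.Agent.Y362.LW.M3
import Pool.Agent.Y367.LW.R
import Pool.Agent.Y256.LW.Disc

/-! Assembly: the embedding property of `𝔘_τ[F]`. -/

open Set Filter Topology Complex Metric

noncomputable section

namespace LW242

theorem p_max : S_MAX := Y405LW.s_max
theorem p_b0 : S_B0 := Y405LW.s_b0 Y365.LW.rmt Y405LW.s_compl Y362.LW.t
theorem p_nf : S_NF := Pool.Agent.Y458.LW.nf
theorem p_idxa : S_IDXa := Pool.Agent.Y891.LW.t sp jwc jbd
theorem p_idxb : S_IDXb := Y362.LW.idxB jwc p_idxa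
theorem p_clu : S_CLU := Y362.LW.clu p_idxa p_idxb
theorem p_len : S_LEN := Y290.LW.Len.t p_max
theorem p_o : S_O := Pool.Agent.Y389.LW.ORho.tO sp jwc jinf
theorem p_rho : S_RHO := Pool.Agent.Y389.LW.ORho.tR sp
theorem p_k : S_K := Pool.Agent.Y367.LW.t p_nf sp jbd p_o
theorem p_m : S_M := Pool.Agent.Y448.LW.t p_idxa p_idxb p_clu p_len p_o jbd
theorem p_m3 : S_M3 := Y362.LW.m3 p_max p_idxa p_idxb sp jbd
theorem p_r : S_R := Pool.Agent.Y367.LW.R.t sp jwc jfin jinf jbd split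
theorem p_n : S_N := thmN p_b0 p_idxa p_idxb p_r p_o p_rho p_k p_m p_m3
theorem p_g : S_G := G350.t0 p_n chain_all p_nf dil_thm

/-- the embedding property, `F` nonempty -/
theorem embed_nonempty (F : Set ℂ) (τ : ℂ) (hF : F.Finite) (hne : F.Nonempty)
    (hFs : F ⊆ sphere 0 1) (hτ : τ ∈ sphere (0 : ℂ) 1) (hτF : τ ∉ F) : Embed F τ :=
  Pool.Agent.Y256.LW.t sp jwc jfin jbd p_g F τ hF hne hFs hτ hτF

end LW242
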