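import Pool.Agent.Y242.LW.TK3

/-! Domains between `φ(H)` and `H`: enlargement, interpolation, extremal data. -/

open Set Filter Topology Complex Metric

noncomputable section

namespace LW242

theorem hp_preconn : IsPreconnected Hp := hp_convex.isPreconnected

theorem uni_open {f : ℂ → ℂ} (hf : Uni f) {U : Set ℂ} (hU : U ⊆ Hp) (hUo : IsOpen U) :
    IsOpen (f '' U) := by
  have h1 : AnalyticOnNhd ℂ f Hp := hf.1.analyticOnNhd hp_open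
  rcases h1.is_constant_or_isOpen hp_preconn with ⟨w, hw⟩ | h
  · exfalso
    have h2 : (2 : ℂ) * I ∈ Hp := by simp [Hp]
    have h3 := hf.2.2 I_mem_hp h2 ((hw _ I_mem_hp).trans (hw _ h2).symm)
    have h4 := congrArg Complex.im h3
    simp at h4
  · exact h U hU hUo

theorem uni_img_open {f : ℂ → ℂ} (hf : Uni f) : IsOpen (f '' Hp) :=
  uni_open hf subset_rfl hp_open

theorem uni_img_sub {f : ℂ → ℂ} (hf : Uni f) : f '' Hp ⊆ Hp := by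
  rintro _ ⟨z, hz, rfl⟩
  exact hf.2.1 hz

theorem uni_img_ne {f : ℂ → ℂ} : (f '' Hp).Nonempty := ⟨_, I, I_mem_hp, rfl⟩

theorem uni_comp {f g : ℂ → ℂ} (hf : Uni f) (hg : Uni g) : Uni (fun z => f (g z)) := by
  refine ⟨hf.1.comp hg.1 hg.2.1, fun z hz => hf.2.1 (hg.2.1 hz), ?_⟩
  intro a ha b hb hab
  exact hg.2.2 ha hb (hf.2.2 (hg.2.1 ha) (hg.2.1 hb) hab)

/-- boundary point of an open subset of the half-plane -/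
theorem bdry_pt {U : Set ℂ} (hU : IsOpen U) (hUH : U ⊆ Hp) (hne : U.Nonempty)
    {p : ℂ} (hp : p ∈ Hp) (hpU : p ∉ U) : ∃ q ∈ Hp, q ∉ U ∧ q ∈ closure U := by
  by_contra hcon
  push Not at hcon
  obtain ⟨u, hu⟩ := hne
  have h1 : Hp ⊆ U := by
    apply IsPreconnected.subset_of_closure_inter_subset hp_preconn hU ⟨u, hUH hu, hu⟩
    rintro q ⟨hq1, hq2⟩
    by_contra hq3
    exact hcon q hq2 hq3 hq1
  exact hpU (h1 hp)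

/-- boundary point inside a region -/
theorem bdry_pt' {U V : Set ℂ} (hU : IsOpen U) (hUH : U ⊆ Hp) (hne : U.Nonempty)
    (hV : IsOpen V) (hVH : V ⊆ Hp) (hVc : ∀ p ∈ Hp, p ∈ closure V → p ∈ V ∨ p ∈ U)
    {p : ℂ} (hp : p ∈ V) (hpU : p ∉ U) : ∃ q ∈ V, q ∉ U ∧ q ∈ closure U := by
  by_contra hcon
  push Not at hcon
  have hEo : IsOpen (V \ closure U) := hV.sdiff isClosed_closure
  have hpE : p ∈ V \ closure U := ⟨hp, hcon p hp hpU⟩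
  obtain ⟨u, hu⟩ := hne
  have h1 : Hp ⊆ V \ closure U := by
    apply IsPreconnected.subset_of_closure_inter_subset hp_preconn hEo ⟨p, hVH hp, hpE⟩
    rintro q ⟨hq1, hq2⟩
    have hqV : q ∈ closure V := closure_mono sdiff_subset hq1
    have hqU : q ∉ U := by
      intro hqU
      have h3 := mem_closure_iff.1 hq1 U hU hqU
      obtain ⟨r, hr1, hr2⟩ := h3
      exact hr2.2 (subset_closure hr1)
    have hqV' : q ∈ V := (hVc q hq2 hqV).resolve_right hqU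
    exact ⟨hqV', hcon q hqV' hqU⟩
  exact (h1 (hUH hu)).2 (subset_closure hu)

section

variable {n : ℕ} {φ : ℂ → ℂ} {c : ℝ} {x A : ℕ → ℝ}

theorem dat_sub {f g : ℂ → ℂ} {ζ : ℕ → ℝ} (hD : Dat n φ c x A f g ζ) : φ '' Hp ⊆ f '' Hp := by
  rintro _ ⟨z, hz, rfl⟩
  exact ⟨g z, hD.g_uni.2.1 hz, hD.comp z hz⟩

/-- Lemma B -/
theorem lemB (hB0 : S_B0) (hR : S_R) (hb : Base n φ c x A) {f g : ℂ → ℂ} {ζ : ℕ → ℝ}
    (hD : Dat n φ c x A f g ζ) {V : Set ℂ} (hV : IsOpen V) (hVH : V ⊆ Hp)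
    (hVc : ∀ p ∈ Hp, p ∈ closure V → p ∈ V ∨ p ∈ φ '' Hp)
    {p : ℂ} (hp : p ∈ V) (hpf : p ∉ f '' Hp) :
    ∃ (f' g' : ℂ → ℂ) (ζ' : ℕ → ℝ), Dat n φ c x A f' g' ζ' ∧ f '' Hp ⊆ f' '' Hp ∧
      (∃ q ∈ f' '' Hp, q ∉ f '' Hp) ∧ ∀ q ∈ f' '' Hp, q ∉ f '' Hp → q ∈ V := by
  have hVc' : ∀ p ∈ Hp, p ∈ closure V → p ∈ V ∨ p ∈ f '' Hp := by
    intro p hp hpc
    rcases hVc p hp hpc with h | h
    · exact Or.inl h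
    · exact Or.inr (dat_sub hD h)
  obtain ⟨q, hqV, hqf, hqc⟩ := bdry_pt' (uni_img_open hD.f_uni) (uni_img_sub hD.f_uni) uni_img_ne
    hV hVH hVc' hp hpf
  obtain ⟨F, hF, h1, h2, h3, -⟩ := hB0 f V q hD.f_uni hV hVH hVc' hqV hqf hqc
  obtain ⟨f', g', ζ', hD', hfF⟩ := hR n φ c x A hb F hF ((dat_sub hD).trans h1)
  refine ⟨f', g', ζ', hD', ?_, ⟨q, ?_, hqf⟩, ?_⟩
  · rw [hfF]; exact h1
  · rw [hfF]; exact h2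
  · rw [hfF]; exact h3

/-- Lemma C -/
theorem lemC (hB0 : S_B0) (hR : S_R) (hO : S_O) (hb : Base n φ c x A) {f g : ℂ → ℂ} {ζ : ℕ → ℝ}
    (hD : Dat n φ c x A f g ζ) {f₂ g₂ : ℂ → ℂ} {ζ₂ : ℕ → ℝ} (hD₂ : Dat n φ c x A f₂ g₂ ζ₂)
    (hsub : f '' Hp ⊆ f₂ '' Hp) {p : ℂ} (hp : p ∈ f₂ '' Hp) (hpf : p ∉ f '' Hp) :
    ∃ (f' g' : ℂ → ℂ) (ζ' : ℕ → ℝ), Dat n φ c x A f' g' ζ' ∧ f '' Hp ⊆ f' '' Hp ∧
      f' '' Hp ⊆ f₂ '' Hp ∧ (∃ q ∈ f' '' Hp, q ∉ f '' Hp) ∧ (∃ q ∈ f₂ '' Hp, q ∉ f' '' Hp) := by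
  obtain ⟨h, hh, hcomp, -, -, -⟩ := hO n φ c x A hb f g ζ f₂ g₂ ζ₂ hD hD₂ hsub
  obtain ⟨u, hu, rfl⟩ := hp
  have hu' : u ∉ h '' Hp := by
    rintro ⟨v, hv, rfl⟩
    exact hpf ⟨v, hv, (hcomp v hv).symm⟩
  obtain ⟨q, hq, hqh, hqc⟩ := bdry_pt (uni_img_open hh) (uni_img_sub hh) uni_img_ne hu hu'
  obtain ⟨F₁, hF₁, h1, h2, -, h4⟩ := hB0 h Hp q hh hp_open subset_rfl
    (fun p hp _ => Or.inl hp) hq hqh hqc
  have hF : Uni (fun z => f₂ (F₁ z)) := uni_comp hD₂.f_uni hF₁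
  have hfF : f '' Hp ⊆ (fun z => f₂ (F₁ z)) '' Hp := by
    rintro _ ⟨z, hz, rfl⟩
    obtain ⟨v, hv, hv2⟩ := h1 ⟨z, hz, rfl⟩
    exact ⟨v, hv, by simp only [hv2]; exact hcomp z hz⟩
  obtain ⟨f', g', ζ', hD', hfF'⟩ := hR n φ c x A hb _ hF ((dat_sub hD).trans hfF)
  refine ⟨f', g', ζ', hD', ?_, ?_, ⟨f₂ q, ?_, ?_⟩, ?_⟩
  · rw [hfF']; exact hfF
  · rw [hfF']
    rintro _ ⟨z, hz, rfl⟩
    exact ⟨F₁ z, hF₁.2.1 hz, rfl⟩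
  · rw [hfF']
    obtain ⟨v, hv, hv2⟩ := h2
    exact ⟨v, hv, by simp only [hv2]⟩
  · rintro ⟨z, hz, hzq⟩
    rw [← hcomp z hz] at hzq
    have := hD₂.f_uni.2.2 (hh.2.1 hz) hq hzq
    exact hqh ⟨z, hz, this⟩
  · rw [hfF']
    have h5 : ∃ r ∈ Hp, r ∉ F₁ '' Hp := by
      by_contra hcon
      push Not at hcon
      exact h4 (Subset.antisymm (uni_img_sub hF₁) hcon)
    obtain ⟨r, hr, hr2⟩ := h5
    refine ⟨f₂ r, ⟨r, hr, rfl⟩, ?_⟩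
    rintro ⟨z, hz, hzq⟩
    exact hr2 ⟨z, hz, hD₂.f_uni.2.2 (hF₁.2.1 hz) hr hzq⟩

theorem rho_lt (hO : S_O) (hRHO : S_RHO) (hb : Base n φ c x A) {f g : ℂ → ℂ} {ζ : ℕ → ℝ}
    (hD : Dat n φ c x A f g ζ) {f₂ g₂ : ℂ → ℂ} {ζ₂ : ℕ → ℝ} (hD₂ : Dat n φ c x A f₂ g₂ ζ₂)
    (hsub : f '' Hp ⊆ f₂ '' Hp) {p : ℂ} (hp : p ∈ f₂ '' Hp) (hpf : p ∉ f '' Hp) :
    rho g₂ < rho g := by
  obtain ⟨h, hh, hcomp, hcomp2, -, -⟩ := hO n φ c x A hb f g ζ f₂ g₂ ζ₂ hD hD₂ hsub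
  obtain ⟨h1, h2⟩ := hRHO g h g₂ hD.g_uni hh hcomp2
  refine lt_of_le_of_ne h1 fun h3 => ?_
  have h4 := h2 h3
  obtain ⟨u, hu, rfl⟩ := hp
  rw [← h4] at hu
  obtain ⟨v, hv, rfl⟩ := hu
  exact hpf ⟨v, hv, (hcomp v hv).symm⟩

theorem rho_nonneg {g : ℂ → ℂ} (hg : Uni g) : 0 ≤ rho g := by
  have : 0 < (g I).im := hg.2.1 I_mem_hp
  exact div_nonneg (norm_nonneg _) this.le

theorem uni_id : Uni (fun z => z) := ⟨differentiableOn_id, fun _ h => h, fun _ _ _ _ h => h⟩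

theorem rho_le_one (hRHO : S_RHO) {g : ℂ → ℂ} (hg : Uni g) : rho g ≤ 1 := by
  have h1 := (hRHO (fun z => z) g g uni_id hg (fun _ _ => rfl)).1
  have h2 : rho (fun z : ℂ => z) = 1 := by
    simp [rho]
  rwa [h2] at h1

/-- extremal data exist for closed conditions -/
theorem extremal (hRHO : S_RHO) (hK : S_K) (hb : Base n φ c x A) (s : ℝ)
    (P : (ℂ → ℂ) → (ℂ → ℂ) → (ℕ → ℝ) → Prop)
    (hne : ∃ f g ζ, Dat n φ c x A f g ζ ∧ P f g ζ)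
    (hcl : ∀ (f g : ℕ → ℂ → ℂ) (ζ : ℕ → ℕ → ℝ) (f' g' : ℂ → ℂ) (ζ' : ℕ → ℝ),
      (∀ k, Dat n φ c x A (f k) (g k) (ζ k)) → (∀ k, P (f k) (g k) (ζ k)) →
      Dat n φ c x A f' g' ζ' →
      (∀ j ≤ n, Tendsto (fun k => ζ k j) (hyperfilter ℕ) (𝓝 (ζ' j))) →
      (∀ p ∈ Hp, (∀ k, p ∉ f k '' Hp) → p ∉ f' '' Hp) →
      (∀ (f₁ g₁ : ℂ → ℂ) (ζ₁ : ℕ → ℝ), Dat n φ c x A f₁ g₁ ζ₁ →
        (∀ k, f₁ '' Hp ⊆ f k '' Hp) → f₁ '' Hp ⊆ f' '' Hp) → P f' g' ζ') :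
    ∃ f g ζ, Dat n φ c x A f g ζ ∧ P f g ζ ∧
      ∀ f₁ g₁ ζ₁, Dat n φ c x A f₁ g₁ ζ₁ → P f₁ g₁ ζ₁ → s * rho g ≤ s * rho g₁ := by
  set S : Set ℝ := {r | ∃ f g ζ, Dat n φ c x A f g ζ ∧ P f g ζ ∧ r = s * rho g} with hS
  have hSne : S.Nonempty := by
    obtain ⟨f, g, ζ, h1, h2⟩ := hne
    exact ⟨_, f, g, ζ, h1, h2, rfl⟩
  have hSb : BddBelow S := by
    refine ⟨-|s|, ?_⟩
    rintro r ⟨f, g, ζ, h1, -, rfl⟩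
    have h3 := rho_nonneg h1.g_uni
    have h4 := rho_le_one hRHO h1.g_uni
    have h5 : |s * rho g| ≤ |s| := by
      rw [abs_mul, abs_of_nonneg h3]
      nlinarith [abs_nonneg s]
    exact (neg_le_neg h5).trans (neg_abs_le _)
  have hseq : ∀ k : ℕ, ∃ f g ζ, Dat n φ c x A f g ζ ∧ P f g ζ ∧
      s * rho g < sInf S + 1 / ((k : ℝ) + 1) := by
    intro k
    obtain ⟨r, ⟨f, g, ζ, h1, h2, rfl⟩, h3⟩ := exists_lt_of_csInf_lt hSne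
      (show sInf S < sInf S + 1 / ((k : ℝ) + 1) by
        have : (0 : ℝ) < 1 / ((k : ℝ) + 1) := by positivity
        linarith)
    exact ⟨f, g, ζ, h1, h2, h3⟩
  choose f g ζ h1 h2 h3 using hseq
  obtain ⟨f', g', ζ', hD, hζ, hrho, hom, hin⟩ := hK n φ c x A hb f g ζ h1
  have hle : ((hyperfilter ℕ : Ultrafilter ℕ) : Filter ℕ) ≤ atTop := by
    rw [← Nat.cofinite_eq_atTop]; exact Filter.hyperfilter_le_cofinite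
  have hP : P f' g' ζ' := hcl f g ζ f' g' ζ' h1 h2 hD hζ
    (fun p hp h => hom p hp (Eventually.of_forall h))
    (fun f₁ g₁ ζ₁ hd h => hin f₁ g₁ ζ₁ hd (Eventually.of_forall h))
  refine ⟨f', g', ζ', hD, hP, ?_⟩
  intro f₁ g₁ ζ₁ hd₁ hP₁
  have h4 : sInf S ≤ s * rho g₁ := csInf_le hSb ⟨f₁, g₁, ζ₁, hd₁, hP₁, rfl⟩
  have h5 : Tendsto (fun k => s * rho (g k)) (hyperfilter ℕ) (𝓝 (s * rho g')) :=
    hrho.const_mul s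
  have h6 : Tendsto (fun k : ℕ => sInf S + 1 / ((k : ℝ) + 1)) (hyperfilter ℕ)
      (𝓝 (sInf S + 0)) :=
    (tendsto_const_nhds.add tendsto_one_div_add_atTop_nhds_zero_nat).mono_left hle
  rw [add_zero] at h6
  have h7 : s * rho g' ≤ sInf S := le_of_tendsto_of_tendsto' h5 h6 fun k => (h3 k).le
  linarith

/-- equal images have equal lengths -/
theorem len_eq (hM : S_M) (hb : Base n φ c x A) {f g : ℂ → ℂ} {ζ : ℕ → ℝ}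
    (hD : Dat n φ c x A f g ζ) {f₂ g₂ : ℂ → ℂ} {ζ₂ : ℕ → ℝ} (hD₂ : Dat n φ c x A f₂ g₂ ζ₂)
    (heq : f '' Hp = f₂ '' Hp) {j : ℕ} (hj : j < n) :
    ζ (j + 1) - ζ j = ζ₂ (j + 1) - ζ₂ j := by
  apply le_antisymm
  · exact hM n φ c x A hb f g ζ f₂ g₂ ζ₂ hD hD₂ heq.subset j hj
      (fun p hp hpf => absurd (heq ▸ hp) hpf)
  · exact hM n φ c x A hb f₂ g₂ ζ₂ f g ζ hD₂ hD heq.symm.subset j hj
      (fun p hp hpf => absurd (heq ▸ hp) hpf)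

/-- intermediate value lemma -/
theorem interm (hB0 : S_B0) (hR : S_R) (hO : S_O) (hRHO : S_RHO) (hK : S_K) (hM : S_M)
    (hb : Base n φ c x A) {f g : ℂ → ℂ} {ζ : ℕ → ℝ}
    (hD : Dat n φ c x A f g ζ) {f₂ g₂ : ℂ → ℂ} {ζ₂ : ℕ → ℝ} (hD₂ : Dat n φ c x A f₂ g₂ ζ₂)
    (hsub : f '' Hp ⊆ f₂ '' Hp) {p : ℂ} (hp : p ∈ f₂ '' Hp) (hpf : p ∉ f '' Hp)
    {j : ℕ} (hj : j < n) {a : ℝ} (ha : a < ζ (j + 1) - ζ j) :
    ∃ (f' g' : ℂ → ℂ) (ζ' : ℕ → ℝ), Dat n φ c x A f' g' ζ' ∧ f '' Hp ⊆ f' '' Hp ∧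
      f' '' Hp ⊆ f₂ '' Hp ∧ (∃ q ∈ f' '' Hp, q ∉ f '' Hp) ∧ a ≤ ζ' (j + 1) - ζ' j := by
  by_cases h0 : a ≤ ζ₂ (j + 1) - ζ₂ j
  · exact ⟨f₂, g₂, ζ₂, hD₂, hsub, subset_rfl, ⟨p, hp, hpf⟩, h0⟩
  push Not at h0
  obtain ⟨f₁, g₁, ζ₁, hD₁, ⟨hs1, hs2, hs3⟩, hext⟩ := extremal hRHO hK hb (-1)
    (fun f' _ ζ' => f '' Hp ⊆ f' '' Hp ∧ f' '' Hp ⊆ f₂ '' Hp ∧ ζ' (j + 1) - ζ' j ≤ a)
    ⟨f₂, g₂, ζ₂, hD₂, hsub, subset_rfl, h0.le⟩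
    (by
      intro f g ζ' f' g' ζ'' hd hP hd' hζ hom hin
      refine ⟨hin _ _ _ hD fun k => (hP k).1, ?_, ?_⟩
      · intro q hq
        by_contra hq2
        refine hom q (uni_img_sub hd'.f_uni hq) (fun k hk => hq2 ((hP k).2.1 hk)) hq
      · have h1 := (hζ (j + 1) hj).sub (hζ j hj.le)
        exact le_of_tendsto h1 (Eventually.of_forall fun k => (hP k).2.2))
  have hne : f '' Hp ≠ f₁ '' Hp := by
    intro h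
    have := len_eq hM hb hD hD₁ h hj
    linarith
  have hex : ∃ q ∈ f₁ '' Hp, q ∉ f '' Hp := by
    by_contra hcon
    push Not at hcon
    exact hne (Subset.antisymm hs1 hcon)
  obtain ⟨q, hq, hqf⟩ := hex
  obtain ⟨f₃, g₃, ζ₃, hD₃, k1, k2, k3, q', hq', hq'3⟩ := lemC hB0 hR hO hb hD hD₁ hs1 hq hqf
  refine ⟨f₃, g₃, ζ₃, hD₃, k1, k2.trans hs2, k3, ?_⟩
  by_contra hcon
  push Not at hcon
  have h1 := hext f₃ g₃ ζ₃ hD₃ ⟨k1, k2.trans hs2, hcon.le⟩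
  have h2 := rho_lt hO hRHO hb hD₃ hD₁ k2 hq' hq'3
  linarith

end

end LW242
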