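import Pool.Agent.Y242.LW.NA

/-! Theorem N: there are no indecomposable elements in the semigroup. -/

open Set Filter Topology Complex Metric

noncomputable section

namespace LW242

section

variable {n : ℕ} {φ : ℂ → ℂ} {c : ℝ} {x A : ℕ → ℝ}

theorem base_adm (hb : Base n φ c x A) {j : ℕ} (hj : j ≤ n) : Adm φ (x j) (x j) := by
  refine ⟨hb.uni, fun z hz => ?_, A j, hb.jul j hj⟩
  have h1 := hb.im_ge z hz
  have h2 := hb.one_le
  have h3 : 0 < z.im := hz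
  nlinarith

theorem base_A (hb : Base n φ c x A) {j : ℕ} (hj : j ≤ n) : c ≤ A j := by
  have h2 := jul_vert_im hb.uni.2.1 (hb.jul j hj) (e := 1) one_pos
  have h3 := hb.im_ge _ (vert_mem (x j) (e := 1) one_pos)
  have h4 : (((x j : ℝ) : ℂ) + (1 : ℝ) * I).im = 1 := by simp
  rw [h4] at h3
  linarith

theorem curve_sub {g : ℂ → ℂ} {y : ℝ} : curve g y ⊆ g '' Hp := by
  rintro _ ⟨z, hz, rfl⟩
  exact ⟨z, hz.2, rfl⟩

/-- the half-plane itself as a datum -/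
theorem dat_H (hb : Base n φ c x A) : Dat n φ c x A (fun z => z) φ x := by
  refine ⟨uni_id, hb.uni, fun _ _ => rfl, fun _ _ => le_rfl, hb.im_ge, rfl, hb.jul, ?_⟩
  intro j hj z hz
  have h1 := base_A hb hj
  have h2 := hb.one_le
  have h3 : 0 < z.im := hz
  have h4 : (1 : ℝ) ≤ A j := h2.trans h1
  have h5 : 0 ≤ z.im * ‖z - (x j : ℂ)‖ ^ 2 := by positivity
  calc z.im * ‖z - (x j : ℂ)‖ ^ 2 = 1 * (z.im * ‖z - (x j : ℂ)‖ ^ 2) := by ring
    _ ≤ A j * (z.im * ‖z - (x j : ℂ)‖ ^ 2) := by gcongr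
    _ = A j * z.im * ‖z - (x j : ℂ)‖ ^ 2 := by ring

/-- scaling about `x₀` -/
def scl (x0 l : ℝ) (z : ℂ) : ℂ := (x0 : ℂ) + (l : ℂ) * (z - x0)

theorem scl_im (x0 l : ℝ) (z : ℂ) : (scl x0 l z).im = l * z.im := by
  simp [scl]

theorem scl_uni (x0 : ℝ) {l : ℝ} (hl : 0 < l) : Uni (scl x0 l) := by
  refine ⟨?_, ?_, ?_⟩
  · intro z _
    have : DifferentiableAt ℂ (fun z : ℂ => (x0 : ℂ) + (l : ℂ) * (z - x0)) z := by fun_prop
    exact this.differentiableWithinAt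
  · intro z hz
    have : 0 < z.im := hz
    rw [mem_hp, scl_im]
    positivity
  · intro a _ b _ hab
    have hl' : (l : ℂ) ≠ 0 := by exact_mod_cast hl.ne'
    simp only [scl] at hab
    have h1 : (l : ℂ) * (a - b) = 0 := by linear_combination hab
    rcases mul_eq_zero.1 h1 with h | h
    · exact absurd h hl'
    · linear_combination h

theorem scl_real (x0 l t : ℝ) : scl x0 l (t : ℂ) = ((x0 + l * (t - x0) : ℝ) : ℂ) := by
  simp [scl]

theorem scl_jul (x0 : ℝ) {l : ℝ} (hl : 0 < l) (t : ℝ) :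
    Jul (scl x0 l) t (x0 + l * (t - x0)) l := by
  intro z hz
  have h1 : scl x0 l z - ((x0 + l * (t - x0) : ℝ) : ℂ) = (l : ℂ) * (z - t) := by
    simp [scl]; ring
  rw [h1, scl_im, norm_mul, Complex.norm_real, Real.norm_eq_abs, abs_of_pos hl]
  apply le_of_eq
  ring

theorem scl_inv (x0 : ℝ) {l : ℝ} (hl : 0 < l) (z : ℂ) : scl x0 l (scl x0 l⁻¹ z) = z := by
  have hl' : (l : ℂ) ≠ 0 := by exact_mod_cast hl.ne'
  simp only [scl, Complex.ofReal_inv]
  field_simp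
  ring

theorem scl_inv' (x0 : ℝ) {l : ℝ} (hl : 0 < l) (z : ℂ) : scl x0 l⁻¹ (scl x0 l z) = z := by
  have hl' : (l : ℂ) ≠ 0 := by exact_mod_cast hl.ne'
  simp only [scl, Complex.ofReal_inv]
  field_simp
  ring

/-- the smallest domain `φ(H)` as a datum -/
theorem dat_Om (hb : Base n φ c x A) : Dat n φ c x A (fun z => φ (scl (x 0) c⁻¹ z)) (scl (x 0) c)
    (fun j => x 0 + c * (x j - x 0)) := by
  have hc : 0 < c := lt_of_lt_of_le one_pos hb.one_le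
  have hci : 0 < c⁻¹ := inv_pos.2 hc
  refine ⟨uni_comp hb.uni (scl_uni _ hci), scl_uni _ hc, ?_, ?_, ?_, ?_, ?_, ?_⟩
  · intro z _
    simp only [scl_inv' (x 0) hc z]
  · intro z hz
    have h1 := hb.im_ge _ ((scl_uni (x 0) hci).2.1 hz)
    rw [scl_im] at h1
    have h2 : c * (c⁻¹ * z.im) = z.im := by field_simp
    rwa [h2] at h1
  · intro z hz
    rw [scl_im]
  · simp
  · intro j hj
    exact jul_mono (scl_uni _ hc).2.1 (scl_jul (x 0) hc (x j)) (base_A hb hj)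
  · intro j hj
    have h1 := scl_jul (x 0) hci (x 0 + c * (x j - x 0))
    have h2 : x 0 + c⁻¹ * (x 0 + c * (x j - x 0) - x 0) = x j := by field_simp; ring
    rw [h2] at h1
    have h3 := jul_comp hb.uni.2.1 (scl_uni (x 0) hci).2.1 h1 (hb.jul j hj)
    refine jul_mono (fun z hz => hb.uni.2.1 ((scl_uni (x 0) hci).2.1 hz)) h3 ?_
    have h4 : 0 < A j := lt_of_lt_of_le hc (base_A hb hj)
    have h5 : c⁻¹ ≤ 1 := inv_le_one_of_one_le₀ hb.one_le
    nlinarith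

theorem dat_Om_img (hb : Base n φ c x A) :
    (fun z => φ (scl (x 0) c⁻¹ z)) '' Hp = φ '' Hp := by
  have hc : 0 < c := lt_of_lt_of_le one_pos hb.one_le
  have hci : 0 < c⁻¹ := inv_pos.2 hc
  apply Subset.antisymm
  · rintro _ ⟨z, hz, rfl⟩
    exact ⟨_, (scl_uni (x 0) hci).2.1 hz, rfl⟩
  · rintro _ ⟨z, hz, rfl⟩
    exact ⟨scl (x 0) c z, (scl_uni (x 0) hc).2.1 hz, by simp only [scl_inv' (x 0) hc z]⟩

/-! ### regions -/

/-- `V` is a region cut out by curves in `φ(H)` -/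
def Reg (φ : ℂ → ℂ) (V : Set ℂ) : Prop :=
  IsOpen V ∧ V ⊆ Hp ∧ ∀ p ∈ Hp, p ∈ closure V → p ∈ V ∨ p ∈ φ '' Hp

theorem reg_of {V : Set ℂ} (hVH : V ⊆ Hp) (hVo : IsOpen V)
    (h : ∀ p ∈ Hp, p ∉ φ '' Hp → ∀ᶠ q in 𝓝 p, (q ∈ V ↔ p ∈ V)) : Reg φ V := by
  refine ⟨hVo, hVH, fun p hp hpc => ?_⟩
  by_cases hpφ : p ∈ φ '' Hp
  · exact Or.inr hpφ
  · left
    have h1 := h p hp hpφ
    have h2 : ∃ᶠ q in 𝓝 p, q ∈ V := mem_closure_iff_frequently.1 hpc
    obtain ⟨q, hq1, hq2⟩ := (h2.and_eventually h1).exists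
    exact hq2.1 hq1

theorem rt_open (hA : S_IDXa) {g : ℂ → ℂ} {y ζ : ℝ} (hg : Adm g y ζ) :
    IsOpen {q | RtI g y ζ q} := by
  rw [isOpen_iff_mem_nhds]
  intro q hq
  obtain ⟨h1, -, -, h4, -⟩ := hA g y ζ hg
  have hq' : RtI g y ζ q := hq
  filter_upwards [h4 q hq'.1 (h1 q hq')] with q' hq''
  exact hq''.1.2 hq

theorem lt_open (hA : S_IDXa) {g : ℂ → ℂ} {y ζ : ℝ} (hg : Adm g y ζ) :
    IsOpen {q | LtI g y ζ q} := by
  rw [isOpen_iff_mem_nhds]
  intro q hq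
  obtain ⟨-, h1, -, h4, -⟩ := hA g y ζ hg
  have hq' : LtI g y ζ q := hq
  filter_upwards [h4 q hq'.1 (h1 q hq')] with q' hq''
  exact hq''.2.2 hq

theorem reg_rt (hA : S_IDXa) (hb : Base n φ c x A) {j : ℕ} (hj : j ≤ n) :
    Reg φ {q | RtI φ (x j) (x j) q} := by
  apply reg_of (fun q hq => hq.1) (rt_open hA (base_adm hb hj))
  intro p hp hpφ
  obtain ⟨-, -, -, h4, -⟩ := hA φ (x j) (x j) (base_adm hb hj)
  filter_upwards [h4 p hp fun h => hpφ (curve_sub h)] with q hq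
  exact hq.1

theorem reg_lt (hA : S_IDXa) (hb : Base n φ c x A) {j : ℕ} (hj : j ≤ n) :
    Reg φ {q | LtI φ (x j) (x j) q} := by
  apply reg_of (fun q hq => hq.1) (lt_open hA (base_adm hb hj))
  intro p hp hpφ
  obtain ⟨-, -, -, h4, -⟩ := hA φ (x j) (x j) (base_adm hb hj)
  filter_upwards [h4 p hp fun h => hpφ (curve_sub h)] with q hq
  exact hq.2

theorem reg_mid (hA : S_IDXa) (hb : Base n φ c x A) {j : ℕ} (hj : j < n) :
    Reg φ {q | RtI φ (x j) (x j) q ∧ LtI φ (x (j + 1)) (x (j + 1)) q} := by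
  have hj' : j + 1 ≤ n := hj
  apply reg_of (fun q hq => hq.1.1)
    ((rt_open hA (base_adm hb hj.le)).inter (lt_open hA (base_adm hb hj')))
  intro p hp hpφ
  obtain ⟨-, -, -, h4, -⟩ := hA φ (x j) (x j) (base_adm hb hj.le)
  obtain ⟨-, -, -, h4', -⟩ := hA φ (x (j + 1)) (x (j + 1)) (base_adm hb hj')
  filter_upwards [h4 p hp fun h => hpφ (curve_sub h), h4' p hp fun h => hpφ (curve_sub h)]
    with q hq hq'
  exact and_congr hq.1 hq'.2

/-- ordering of the sides -/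
theorem side_mono (hB : S_IDXb) (hb : Base n φ c x A) {i j : ℕ} (hij : i ≤ j) (hj : j ≤ n)
    (q : ℂ) : (RtI φ (x j) (x j) q → RtI φ (x i) (x i) q) ∧
      (LtI φ (x i) (x i) q → LtI φ (x j) (x j) q) := by
  rcases hij.eq_or_lt with h | h
  · subst h; exact ⟨id, id⟩
  · have h1 := hB.2.2 φ (x i) (x j) (x i) (x j) (hb.mono i j h hj) (base_adm hb (hij.trans hj))
      (base_adm hb hj)
    exact ⟨h1.1 q, h1.2 q⟩

theorem excl (hA : S_IDXa) (hb : Base n φ c x A) {j : ℕ} (hj : j ≤ n) {q : ℂ}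
    (h1 : RtI φ (x j) (x j) q) (h2 : LtI φ (x j) (x j) q) : False :=
  (hA φ (x j) (x j) (base_adm hb hj)).2.2.1 q h1 h2

/-- the parts are disjoint -/
theorem part_disj (hA : S_IDXa) (hB : S_IDXb) (hb : Base n φ c x A) {i j : ℕ} (hi : i < n)
    (hj : j < n) (hij : i ≠ j) {q : ℂ}
    (h1 : RtI φ (x i) (x i) q ∧ LtI φ (x (i + 1)) (x (i + 1)) q)
    (h2 : RtI φ (x j) (x j) q ∧ LtI φ (x (j + 1)) (x (j + 1)) q) : False := by
  rcases lt_or_gt_of_ne hij with h | h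
  · have h3 := (side_mono hB hb (show i + 1 ≤ j from h) hj.le q).2 h1.2
    exact excl hA hb hj.le h2.1 h3
  · have h3 := (side_mono hB hb (show j + 1 ≤ i from h) hi.le q).2 h2.2
    exact excl hA hb hi.le h1.1 h3

/-- the extremal argument -/
theorem ext_main (hB0 : S_B0) (hA : S_IDXa) (hB : S_IDXb) (hR : S_R) (hO : S_O) (hRHO : S_RHO)
    (hK : S_K) (hM : S_M) (hb : Base n φ c x A) {l : ℝ} (hl : 1 ≤ l)
    {f₀ g₀ : ℂ → ℂ} {ζ₀ : ℕ → ℝ} (hD₀ : Dat n φ c x A f₀ g₀ ζ₀)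
    (hL₀ : ∀ j < n, l * (x (j + 1) - x j) ≤ ζ₀ (j + 1) - ζ₀ j)
    (E : Set ℂ) (hEf : ∀ p ∈ E, p ∉ f₀ '' Hp)
    (hEp : ∀ p ∈ E, ∀ j < n, ¬ (RtI φ (x j) (x j) p ∧ LtI φ (x (j + 1)) (x (j + 1)) p)) :
    ∃ (f g : ℂ → ℂ) (ζ : ℕ → ℝ), Dat n φ c x A f g ζ ∧ f₀ '' Hp ⊆ f '' Hp ∧
      (∀ p ∈ E, p ∉ f '' Hp) ∧ ∀ j < n, ζ (j + 1) - ζ j = l * (x (j + 1) - x j) := by
  obtain ⟨f, g, ζ, hD, ⟨h1, h2, h3⟩, hext⟩ := extremal hRHO hK hb 1
    (fun f _ ζ => f₀ '' Hp ⊆ f '' Hp ∧ (∀ p ∈ E, p ∉ f '' Hp) ∧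
      ∀ j < n, l * (x (j + 1) - x j) ≤ ζ (j + 1) - ζ j)
    ⟨f₀, g₀, ζ₀, hD₀, subset_rfl, hEf, hL₀⟩
    (by
      intro f g ζ f' g' ζ' hd hP hd' hζ hom hin
      refine ⟨hin _ _ _ hD₀ fun k => (hP k).1, ?_, ?_⟩
      · intro p hp hpf
        exact hom p (uni_img_sub hd'.f_uni hpf) (fun k => (hP k).2.1 p hp) hpf
      · intro j hj
        have h1 := (hζ (j + 1) hj).sub (hζ j hj.le)
        exact ge_of_tendsto h1 (Eventually.of_forall fun k => (hP k).2.2 j hj))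
  refine ⟨f, g, ζ, hD, h1, h2, fun j hj => ?_⟩
  by_contra hne
  have hgt : l * (x (j + 1) - x j) < ζ (j + 1) - ζ j := lt_of_le_of_ne (h3 j hj) (Ne.symm hne)
  have hxj : x j < x (j + 1) := hb.mono j (j + 1) (Nat.lt_succ_self j) hj
  -- obstacle
  have hobs : ∃ p ∈ Hp, p ∉ f '' Hp ∧
      (RtI φ (x j) (x j) p ∧ LtI φ (x (j + 1)) (x (j + 1)) p) := by
    by_contra hcon
    push Not at hcon
    have h4 := hM n φ c x A hb f g ζ _ _ _ hD (dat_H hb)
      (by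
        rintro p hp
        exact ⟨p, uni_img_sub hD.f_uni hp, rfl⟩) j hj
      (by
        rintro p ⟨p', hp', rfl⟩ hpf ⟨k1, k2⟩
        exact hcon p' hp' hpf k1 k2)
    have h5 : x (j + 1) - x j ≤ l * (x (j + 1) - x j) := by nlinarith
    linarith
  obtain ⟨p, hp, hpf, hpV⟩ := hobs
  obtain ⟨hV1, hV2, hV3⟩ := reg_mid hA hb hj
  obtain ⟨f₂, g₂, ζ₂, hD₂, hs, ⟨q, hq, hqf⟩, hnew⟩ := lemB hB0 hR hb hD hV1 hV2 hV3 hpV hpf
  obtain ⟨f₃, g₃, ζ₃, hD₃, k1, k2, ⟨q', hq', hq'f⟩, k4⟩ := interm hB0 hR hO hRHO hK hM hb hD hD₂ hs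
    hq hqf hj hgt
  have h6 := hext f₃ g₃ ζ₃ hD₃ ⟨h1.trans k1, ?_, ?_⟩
  · have h7 := rho_lt hO hRHO hb hD hD₃ k1 hq' hq'f
    linarith
  · intro r hr hr3
    have h8 := hnew r (k2 hr3) (h2 r hr)
    exact hEp r hr j hj h8
  · intro i hi
    by_cases hij : i = j
    · subst hij; exact k4
    · refine (h3 i hi).trans (hM n φ c x A hb f g ζ f₃ g₃ ζ₃ hD hD₃ k1 i hi ?_)
      intro r hr hrf hri
      exact part_disj hA hB hb hi hj hij hri (hnew r (k2 hr) hrf)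

/-- positions of the marked points -/
theorem zeta_eq {ζ : ℕ → ℝ} {l : ℝ} (h0 : ζ 0 = x 0)
    (h : ∀ j < n, ζ (j + 1) - ζ j = l * (x (j + 1) - x j)) :
    ∀ j ≤ n, ζ j = x 0 + l * (x j - x 0) := by
  intro j
  induction j with
  | zero => intro _; rw [h0]; ring
  | succ j ih =>
    intro hj
    have h1 := ih (by omega)
    have h2 := h j (by omega)
    linarith

theorem base_of_cls (hx : ∀ i j, i < j → j ≤ n → x i < x j) (hφ : Cls n x φ) :
    ∃ (c : ℝ) (A : ℕ → ℝ), Base n φ c x A := by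
  obtain ⟨hu, him, hj⟩ := hφ
  obtain ⟨c, hc0, hcle, hlim⟩ := jwc φ hu.1 (fun z hz => le_of_lt (hu.2.1 hz))
  choose! A hA using hj
  have hy : Tendsto (fun y : ℝ => (y : ℂ) * I) atTop (NTI 1) := by
    rw [NTI, tendsto_inf]
    constructor
    · rw [tendsto_comap_iff]
      have : ((fun z : ℂ => ‖z‖) ∘ fun y : ℝ => (y : ℂ) * I) = fun y : ℝ => |y| := by
        funext y
        simp
      rw [this]
      exact tendsto_abs_atTop_atTop
    · rw [tendsto_principal]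
      filter_upwards [eventually_gt_atTop 0] with y hy
      simp [hy, abs_of_pos hy]
  have hl : Tendsto (fun y : ℝ => φ (y * I) / (y * I)) atTop (𝓝 (c : ℂ)) := (hlim 1).comp hy
  have hc1 : 1 ≤ c := by
    have h1 : Tendsto (fun y : ℝ => (φ (y * I) / (y * I)).re) atTop (𝓝 c) := by
      exact (Complex.continuous_re.tendsto _).comp hl
    apply ge_of_tendsto h1
    filter_upwards [eventually_gt_atTop 0] with y hy
    have h2 : (y : ℂ) * I ∈ Hp := by simp [Hp, hy]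
    have h3 := him _ h2
    have h4 : (φ (y * I) / (y * I)).re = (φ (y * I)).im / y := by
      rw [Complex.div_re]
      have hy' : y ≠ 0 := hy.ne'
      simp [Complex.normSq_apply]
      field_simp
    rw [h4, le_div_iff₀ hy]
    simpa using h3
  exact ⟨c, A, hu, hx, hc1, hcle, hl, hA⟩

end

/-- Theorem N -/
theorem thmN (hB0 : S_B0) (hA : S_IDXa) (hB : S_IDXb) (hR : S_R) (hO : S_O) (hRHO : S_RHO)
    (hK : S_K) (hM : S_M) (hM3 : S_M3) : S_N := by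
  intro n x hx φ hφ hnt
  obtain ⟨c, A, hb⟩ := base_of_cls hx hφ
  rcases hb.one_le.eq_or_lt with hc | hc
  · -- c = 1
    subst hc
    have hobs : ∃ p ∈ Hp, p ∉ φ '' Hp ∧ (LtI φ (x 0) (x 0) p ∨ RtI φ (x n) (x n) p) := by
      by_contra hcon
      push Not at hcon
      obtain ⟨z, hz, hz2⟩ := hnt
      exact hz2 (hM3 n φ x A hb hcon z hz)
    obtain ⟨p, hp, hpφ, hpV⟩ := hobs
    -- the region
    have hV : ∃ V : Set ℂ, Reg φ V ∧ p ∈ V ∧ ∀ q ∈ V, ∀ j < n,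
        ¬ (RtI φ (x j) (x j) q ∧ LtI φ (x (j + 1)) (x (j + 1)) q) := by
      rcases hpV with h | h
      · refine ⟨_, reg_lt hA hb (Nat.zero_le n), h, ?_⟩
        rintro q hq j hj ⟨h1, -⟩
        exact excl hA hb (Nat.zero_le n) ((side_mono hB hb (Nat.zero_le j) hj.le q).1 h1) hq
      · refine ⟨_, reg_rt hA hb le_rfl, h, ?_⟩
        rintro q hq j hj ⟨-, h1⟩
        exact excl hA hb le_rfl hq ((side_mono hB hb (show j + 1 ≤ n from hj) le_rfl q).2 h1)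
    obtain ⟨V, ⟨hV1, hV2, hV3⟩, hpV', hVp⟩ := hV
    have hOm := dat_Om hb
    have hOmi := dat_Om_img hb
    obtain ⟨f₂, g₂, ζ₂, hD₂, hs, ⟨q, hq, hqf⟩, hnew⟩ := lemB hB0 hR hb hOm hV1 hV2 hV3 hpV'
      (by rw [hOmi]; exact hpφ)
    obtain ⟨f₀, g₀, ζ₀, hD₀, k1, k2, ⟨q₁, hq₁, hq₁f⟩, ⟨p₀, hp₀, hp₀f⟩⟩ :=
      lemC hB0 hR hO hb hOm hD₂ hs hq hqf
    have hp₀V : p₀ ∈ V := hnew p₀ hp₀ fun h => hp₀f (k1 h)
    have hL₀ : ∀ j < n, 1 * (x (j + 1) - x j) ≤ ζ₀ (j + 1) - ζ₀ j := by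
      intro j hj
      have h1 := hM n φ 1 x A hb _ _ _ f₀ g₀ ζ₀ hOm hD₀ k1 j hj (by
        intro r hr hrf
        exact hVp r (hnew r (k2 hr) hrf) j hj)
      linarith
    obtain ⟨f, g, ζ, hD, m1, m2, m3⟩ := ext_main hB0 hA hB hR hO hRHO hK hM hb (le_refl (1 : ℝ)) hD₀
      hL₀ {p₀} (by
        intro r hr
        rw [mem_singleton_iff] at hr
        subst hr
        exact hp₀f) (by
        intro r hr
        rw [mem_singleton_iff] at hr
        subst hr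
        exact hVp r hp₀V)
    have hζ := zeta_eq hD.zero m3
    have hζ' : ∀ j ≤ n, ζ j = x j := fun j hj => by rw [hζ j hj]; ring
    refine ⟨f, g, ⟨hD.f_uni, hD.f_im, fun j hj => ⟨A j, ?_⟩⟩, ⟨hD.g_uni, fun z hz => ?_,
      fun j hj => ⟨A j, ?_⟩⟩, hD.comp, ?_, ?_⟩
    · have := hD.f_jul j hj
      rwa [hζ' j hj] at this
    · have := hD.g_im z hz
      linarith
    · have := hD.g_jul j hj
      rwa [hζ' j hj] at this
    · by_contra hcon
      push Not at hcon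
      refine m2 p₀ rfl ⟨p₀, ?_, hcon p₀ ?_⟩
      · exact uni_img_sub hD₂.f_uni hp₀
      · exact uni_img_sub hD₂.f_uni hp₀
    · by_contra hcon
      push Not at hcon
      have h1 : q₁ ∈ f '' Hp := m1 hq₁
      obtain ⟨z, hz, hz2⟩ := h1
      apply hq₁f
      rw [hOmi]
      refine ⟨z, hz, ?_⟩
      rw [← hD.comp z hz, hcon z hz, hz2]
  · -- c > 1
    have hc0 : 0 < c := by linarith
    set l : ℝ := Real.sqrt c with hl
    have hl1 : 1 < l := by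
      rw [hl, Real.lt_sqrt (by norm_num)]
      simpa using hc
    have hl0 : 0 < l := by linarith
    have hll : l * l = c := Real.mul_self_sqrt hc0.le
    have hlc : l ≤ c := by nlinarith
    have hOm := dat_Om hb
    obtain ⟨f, g, ζ, hD, m1, m2, m3⟩ := ext_main hB0 hA hB hR hO hRHO hK hM hb hl1.le hOm
      (by
        intro j hj
        have hxj : x j < x (j + 1) := hb.mono j (j + 1) (Nat.lt_succ_self j) hj
        nlinarith) ∅ (by simp) (by simp)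
    have hζ := zeta_eq hD.zero m3
    have hli : 0 < l⁻¹ := inv_pos.2 hl0
    have hFu : Uni (fun z => f (scl (x 0) l z)) := uni_comp hD.f_uni (scl_uni _ hl0)
    have hGu : Uni (fun z => scl (x 0) l⁻¹ (g z)) := uni_comp (scl_uni _ hli) hD.g_uni
    have hFi : ∀ z ∈ Hp, l * z.im ≤ (f (scl (x 0) l z)).im := by
      intro z hz
      have := hD.f_im _ ((scl_uni (x 0) hl0).2.1 hz)
      rwa [scl_im] at this
    have hGi : ∀ z ∈ Hp, l * z.im ≤ (scl (x 0) l⁻¹ (g z)).im := by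
      intro z hz
      have h1 := hD.g_im z hz
      rw [scl_im, ← hll] at *
      have h2 : l * z.im = l⁻¹ * (l * l * z.im) := by field_simp
      rw [h2]
      gcongr
    have him : ∀ z ∈ Hp, z.im ≤ l * z.im := by
      intro z hz
      have : 0 < z.im := hz
      nlinarith
    refine ⟨fun z => f (scl (x 0) l z), fun z => scl (x 0) l⁻¹ (g z),
      ⟨hFu, fun z hz => (him z hz).trans (hFi z hz), fun j hj => ⟨A j * l, ?_⟩⟩,
      ⟨hGu, fun z hz => (him z hz).trans (hGi z hz), fun j hj => ⟨l⁻¹ * A j, ?_⟩⟩, ?_, ?_, ?_⟩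
    · have h1 := scl_jul (x 0) hl0 (x j)
      rw [← hζ j hj] at h1
      exact jul_comp hD.f_uni.2.1 (scl_uni _ hl0).2.1 h1 (hD.f_jul j hj)
    · have h1 := scl_jul (x 0) hli (ζ j)
      have h2 : x 0 + l⁻¹ * (ζ j - x 0) = x j := by
        rw [hζ j hj]; field_simp; ring
      rw [h2] at h1
      exact jul_comp (scl_uni _ hli).2.1 hD.g_uni.2.1 (hD.g_jul j hj) h1
    · intro z hz
      simp only [scl_inv (x 0) hl0 (g z)]
      exact hD.comp z hz
    · refine ⟨I, I_mem_hp, fun h => ?_⟩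
      have h1 := hFi I I_mem_hp
      have h' : f (scl (x 0) l I) = I := h
      rw [h'] at h1
      simp at h1
      linarith
    · refine ⟨I, I_mem_hp, fun h => ?_⟩
      have h1 := hGi I I_mem_hp
      have h' : scl (x 0) l⁻¹ (g I) = I := h
      rw [h'] at h1
      simp at h1
      linarith

end LW242
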