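import Pool.Agent.Y242.LW.Stm

/-! Toolkit, part 1: Schwarz–Pick, Julia at finite points and at infinity. -/

open Set Filter Topology Complex Metric

noncomputable section

namespace LW242

theorem hp_open : IsOpen Hp := isOpen_lt continuous_const Complex.continuous_im

theorem hp_convex : Convex ℝ Hp := convex_halfSpace_im_gt 0

theorem mem_hp {z : ℂ} : z ∈ Hp ↔ 0 < z.im := Iff.rfl

theorem I_mem_hp : I ∈ Hp := by simp [Hp]

/-- norm identity -/
theorem normsq_sub_conj (z w : ℂ) :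
    ‖z - (starRingEnd ℂ) w‖ ^ 2 = ‖z - w‖ ^ 2 + 4 * z.im * w.im := by
  rw [← Complex.normSq_eq_norm_sq, ← Complex.normSq_eq_norm_sq, Complex.normSq_apply,
    Complex.normSq_apply]
  simp
  ring

/-- inverse Cayley transform centred at `w` -/
def cinv (w ζ : ℂ) : ℂ := (w - (starRingEnd ℂ) w * ζ) / (1 - ζ)

theorem cinv_im {w ζ : ℂ} (hζ : ‖ζ‖ < 1) :
    (cinv w ζ).im = w.im * (1 - ‖ζ‖ ^ 2) / ‖1 - ζ‖ ^ 2 := by
  have h1 : (1 : ℂ) - ζ ≠ 0 := by
    intro h
    have : ζ = 1 := by linear_combination -h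
    rw [this] at hζ
    simp at hζ
  have h2 : Complex.normSq (1 - ζ) ≠ 0 := by
    rwa [Ne, Complex.normSq_eq_zero]
  rw [cinv, Complex.div_im, ← Complex.normSq_eq_norm_sq, ← Complex.normSq_eq_norm_sq]
  rw [div_sub_div_same]
  congr 1
  simp [Complex.normSq_apply]
  ring

theorem cinv_mem {w ζ : ℂ} (hw : w ∈ Hp) (hζ : ‖ζ‖ < 1) : cinv w ζ ∈ Hp := by
  rw [mem_hp, cinv_im hζ]
  have h1 : (1 : ℂ) - ζ ≠ 0 := by
    intro h
    have : ζ = 1 := by linear_combination -h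
    rw [this] at hζ
    simp at hζ
  have h2 : 0 < ‖1 - ζ‖ := norm_pos_iff.2 h1
  have h3 : 0 < 1 - ‖ζ‖ ^ 2 := by nlinarith [norm_nonneg ζ]
  have := mem_hp.1 hw
  positivity

theorem sp_strict (h : ℂ → ℂ) (hd : DifferentiableOn ℂ h Hp) (hm : MapsTo h Hp Hp)
    {z w : ℂ} (hz : z ∈ Hp) (hw : w ∈ Hp) :
    ‖h z - h w‖ ^ 2 * z.im * w.im ≤ ‖z - w‖ ^ 2 * (h z).im * (h w).im := by
  have hw' : 0 < w.im := hw
  have hz' : 0 < z.im := hz
  have hhw : 0 < (h w).im := hm hw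
  have hhz : 0 < (h z).im := hm hz
  have hne : ∀ {a b : ℂ}, 0 < a.im → 0 < b.im → a - (starRingEnd ℂ) b ≠ 0 := by
    intro a b ha hb h0
    have : (a - (starRingEnd ℂ) b).im = 0 := by rw [h0]; simp
    simp at this
    linarith
  -- the disc function
  set H : ℂ → ℂ := fun ζ => (h (cinv w ζ) - h w) / (h (cinv w ζ) - (starRingEnd ℂ) (h w)) with hH
  have h1ne : ∀ ζ ∈ ball (0 : ℂ) 1, (1 : ℂ) - ζ ≠ 0 := by
    intro ζ hζ h0
    have : ζ = 1 := by linear_combination -h0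
    rw [this] at hζ
    simp at hζ
  have hcd : DifferentiableOn ℂ (cinv w) (ball 0 1) := by
    intro ζ hζ
    have : DifferentiableAt ℂ (fun ζ : ℂ => (w - (starRingEnd ℂ) w * ζ) / (1 - ζ)) ζ := by
      apply DifferentiableAt.div
      · fun_prop
      · fun_prop
      · exact h1ne ζ hζ
    exact this.differentiableWithinAt
  have hcm : MapsTo (cinv w) (ball 0 1) Hp := fun ζ hζ => cinv_mem hw (by simpa using hζ)
  have hHd : DifferentiableOn ℂ H (ball 0 1) := by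
    have h3 : DifferentiableOn ℂ (fun ζ => h (cinv w ζ)) (ball 0 1) := hd.comp hcd hcm
    exact (h3.sub_const _).div (h3.sub_const _) (fun ζ hζ => hne (hm (hcm hζ)) hhw)
  have hHm : MapsTo H (ball 0 1) (ball 0 1) := by
    intro ζ hζ
    have h4 : 0 < (h (cinv w ζ)).im := hm (hcm hζ)
    have h5 := hne h4 hhw
    rw [mem_ball_zero_iff, hH]
    simp only [norm_div]
    rw [div_lt_one (norm_pos_iff.2 h5)]
    have h6 := normsq_sub_conj (h (cinv w ζ)) (h w)
    have h7 : 0 < 4 * (h (cinv w ζ)).im * (h w).im := by positivity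
    exact lt_of_pow_lt_pow_left₀ 2 (norm_nonneg _) (by linarith)
  have hH0 : H 0 = 0 := by
    simp [hH, cinv]
  have hζ0 : (z - w) / (z - (starRingEnd ℂ) w) ∈ ball (0 : ℂ) 1 := by
    have h5 := hne hz' hw'
    rw [mem_ball_zero_iff, norm_div, div_lt_one (norm_pos_iff.2 h5)]
    have h6 := normsq_sub_conj z w
    have h7 : 0 < 4 * z.im * w.im := by positivity
    exact lt_of_pow_lt_pow_left₀ 2 (norm_nonneg _) (by linarith)
  have hcz : cinv w ((z - w) / (z - (starRingEnd ℂ) w)) = z := by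
    have h5 := hne hz' hw'
    have h6 := hne hw' hw'
    rw [cinv]
    have h8 : (1 : ℂ) - (z - w) / (z - (starRingEnd ℂ) w) =
        (w - (starRingEnd ℂ) w) / (z - (starRingEnd ℂ) w) := by
      field_simp
      ring
    rw [h8]
    field_simp
    ring
  have key := Complex.norm_le_norm_of_mapsTo_ball hHd (hHm.mono_right ball_subset_closedBall) hH0
    (mem_ball_zero_iff.1 hζ0)
  rw [hH] at key
  simp only [hcz] at key
  rw [norm_div, norm_div, div_le_div_iff₀ (norm_pos_iff.2 (hne hhz hhw))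
    (norm_pos_iff.2 (hne hz' hw'))] at key
  have key2 : (‖h z - h w‖ * ‖z - (starRingEnd ℂ) w‖) ^ 2 ≤
      (‖z - w‖ * ‖h z - (starRingEnd ℂ) (h w)‖) ^ 2 :=
    pow_le_pow_left₀ (by positivity) key 2
  rw [mul_pow, mul_pow, normsq_sub_conj, normsq_sub_conj] at key2
  nlinarith

/-- Schwarz–Pick -/
theorem sp : S_SP := by
  intro h hd hi z hz w hw
  -- perturb
  have h1 : ∀ ε : ℝ, 0 < ε → ‖h z - h w‖ ^ 2 * z.im * w.im ≤
      ‖z - w‖ ^ 2 * ((h z).im + ε) * ((h w).im + ε) := by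
    intro ε hε
    have h2 := sp_strict (fun z => h z + ε * I) (hd.add_const _) (fun z hz => by
      have := hi z hz
      simp [Hp]
      linarith) hz hw
    simpa using h2
  have h3 : Tendsto (fun ε : ℝ => ‖z - w‖ ^ 2 * ((h z).im + ε) * ((h w).im + ε)) (𝓝[>] 0)
      (𝓝 (‖z - w‖ ^ 2 * ((h z).im + 0) * ((h w).im + 0))) := by
    apply Tendsto.mono_left _ nhdsWithin_le_nhds
    apply Continuous.tendsto
    fun_prop
  rw [add_zero, add_zero] at h3
  apply ge_of_tendsto h3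
  filter_upwards [self_mem_nhdsWithin] with ε hε using h1 ε hε

/-- Julia at a finite point -/
theorem jfin : S_JFIN := by
  intro h x ξ C w b hd hi hw hwx hhξ hb hbC z hz
  have h1 : ∀ k, ‖h z - h (w k)‖ ^ 2 * z.im ≤ ‖z - w k‖ ^ 2 * (h z).im * b k := by
    intro k
    have h2 := sp h hd hi z hz (w k) (hw k)
    have h3 : 0 < (w k).im := hw k
    have h4 := hb k
    have h5 : 0 ≤ ‖z - w k‖ ^ 2 * (h z).im := mul_nonneg (by positivity) (hi z hz)
    have h6 : ‖z - w k‖ ^ 2 * (h z).im * (h (w k)).im ≤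
        ‖z - w k‖ ^ 2 * (h z).im * (b k * (w k).im) := mul_le_mul_of_nonneg_left h4 h5
    have h7 : ‖h z - h (w k)‖ ^ 2 * z.im * (w k).im ≤
        (‖z - w k‖ ^ 2 * (h z).im * b k) * (w k).im := by nlinarith
    exact le_of_mul_le_mul_right h7 h3
  have h2 : Tendsto (fun k => ‖h z - h (w k)‖ ^ 2 * z.im) atTop
      (𝓝 (‖h z - ξ‖ ^ 2 * z.im)) :=
    ((tendsto_const_nhds.sub hhξ).norm.pow 2).mul_const _
  have h3 : Tendsto (fun k => ‖z - w k‖ ^ 2 * (h z).im * b k) atTop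
      (𝓝 (‖z - x‖ ^ 2 * (h z).im * C)) :=
    (((tendsto_const_nhds.sub hwx).norm.pow 2).mul_const _).mul hbC
  have h4 := le_of_tendsto_of_tendsto' h2 h3 h1
  calc z.im * ‖h z - (ξ : ℂ)‖ ^ 2 = ‖h z - ξ‖ ^ 2 * z.im := by ring
    _ ≤ ‖z - x‖ ^ 2 * (h z).im * C := h4
    _ = C * (h z).im * ‖z - (x : ℂ)‖ ^ 2 := by ring

/-- Julia at infinity -/
theorem jinf : S_JINF := by
  intro h β w hd hi hw hwi hhi hlim z hz
  have hz' : 0 < z.im := hz
  have h1 : ∀ᶠ k in atTop, ‖h z / h (w k) - 1‖ ^ 2 * z.im ≤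
      ‖z / w k - 1‖ ^ 2 * (h z).im *
        (((h (w k)).im / ‖h (w k)‖ ^ 2) / ((w k).im / ‖w k‖ ^ 2)) := by
    filter_upwards [hwi.eventually_gt_atTop 0, hhi.eventually_gt_atTop 0] with k hk1 hk2
    have h2 := sp h hd hi z hz (w k) (hw k)
    have h3 : 0 < (w k).im := hw k
    have hwne : w k ≠ 0 := norm_pos_iff.1 hk1
    have hhne : h (w k) ≠ 0 := norm_pos_iff.1 hk2
    have e1 : ‖h z / h (w k) - 1‖ = ‖h z - h (w k)‖ / ‖h (w k)‖ := by
      rw [← norm_div]; congr 1; field_simp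
    have e2 : ‖z / w k - 1‖ = ‖z - w k‖ / ‖w k‖ := by
      rw [← norm_div]; congr 1; field_simp
    rw [e1, e2, div_div_div_eq, div_pow, div_pow]
    rw [div_mul_eq_mul_div, div_mul_eq_mul_div, div_mul_div_comm, div_le_div_iff₀ (by positivity)
      (by positivity)]
    calc ‖h z - h (w k)‖ ^ 2 * z.im * (‖w k‖ ^ 2 * (‖h (w k)‖ ^ 2 * (w k).im))
        = (‖h z - h (w k)‖ ^ 2 * z.im * (w k).im) * (‖w k‖ ^ 2 * ‖h (w k)‖ ^ 2) := by ring
      _ ≤ (‖z - w k‖ ^ 2 * (h z).im * (h (w k)).im) * (‖w k‖ ^ 2 * ‖h (w k)‖ ^ 2) := by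
          apply mul_le_mul_of_nonneg_right h2 (by positivity)
      _ = ‖z - w k‖ ^ 2 * (h z).im * ((h (w k)).im * ‖w k‖ ^ 2) * ‖h (w k)‖ ^ 2 := by ring
  have hz0 : Tendsto (fun k => h z / h (w k)) atTop (𝓝 0) := by
    rw [tendsto_zero_iff_norm_tendsto_zero]
    simp only [norm_div]
    exact tendsto_const_nhds.div_atTop hhi
  have hz1 : Tendsto (fun k => z / w k) atTop (𝓝 0) := by
    rw [tendsto_zero_iff_norm_tendsto_zero]
    simp only [norm_div]
    exact tendsto_const_nhds.div_atTop hwi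
  have h5 : Tendsto (fun k => ‖h z / h (w k) - 1‖ ^ 2 * z.im) atTop (𝓝 (‖(0 : ℂ) - 1‖ ^ 2 * z.im)) :=
    ((hz0.sub_const 1).norm.pow 2).mul_const _
  have h6 := (((hz1.sub_const 1).norm.pow 2).mul_const (h z).im).mul hlim
  have h7 := le_of_tendsto_of_tendsto h5 h6 h1
  simp at h7
  linarith

theorem jbd : S_JBD := by
  intro h x ξ C hm hJ
  have hpos : 0 < C := by
    have h1 : (x : ℂ) + I ∈ Hp := by simp [Hp]
    have h2 := hJ _ h1
    have h3 : 0 < (h (x + I)).im := hm h1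
    have h4 : 0 < ‖h (x + I) - (ξ : ℂ)‖ := by
      rw [norm_pos_iff]
      intro h0
      have : (h (x + I) - (ξ : ℂ)).im = 0 := by rw [h0]; simp
      simp at this
      linarith
    simp at h2
    by_contra hC
    push Not at hC
    have : C * (h (x + I)).im ≤ 0 := mul_nonpos_of_nonpos_of_nonneg hC h3.le
    have h5 : 0 < ‖h (x + I) - (ξ : ℂ)‖ ^ 2 := by positivity
    linarith
  have hbd : ∀ z ∈ Hp, ‖h z - (ξ : ℂ)‖ ≤ C * (‖z - (x : ℂ)‖ ^ 2 / z.im) := by
    intro z hz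
    have hz' : 0 < z.im := hz
    have h2 := hJ z hz
    have h3 : 0 < (h z).im := hm hz
    have h4 : (h z).im ≤ ‖h z - (ξ : ℂ)‖ := by
      have := Complex.abs_im_le_norm (h z - (ξ : ℂ))
      simp at this
      exact (le_abs_self _).trans this
    have h5 : 0 < ‖h z - (ξ : ℂ)‖ := lt_of_lt_of_le h3 h4
    have h6 : z.im * ‖h z - (ξ : ℂ)‖ ^ 2 ≤ C * ‖h z - (ξ : ℂ)‖ * ‖z - (x : ℂ)‖ ^ 2 := by
      refine h2.trans ?_
      gcongr
    have h7 : (z.im * ‖h z - (ξ : ℂ)‖) * ‖h z - (ξ : ℂ)‖ ≤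
        (C * ‖z - (x : ℂ)‖ ^ 2) * ‖h z - (ξ : ℂ)‖ := by nlinarith
    have h8 := le_of_mul_le_mul_right h7 h5
    rw [mul_div_assoc', le_div_iff₀ hz']
    linarith
  refine ⟨hpos, hbd, ?_⟩
  rw [tendsto_iff_norm_sub_tendsto_zero]
  have h1 : Tendsto (fun e : ℝ => C * e) (𝓝[>] 0) (𝓝 0) := by
    have : Tendsto (fun e : ℝ => C * e) (𝓝 0) (𝓝 (C * 0)) := (continuous_const_mul C).tendsto 0
    rw [mul_zero] at this
    exact this.mono_left nhdsWithin_le_nhds
  apply squeeze_zero' _ _ h1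
  · filter_upwards with e using norm_nonneg _
  · filter_upwards [self_mem_nhdsWithin] with e he
    have he' : 0 < e := he
    have h2 := hbd (x + e * I) (by simp [Hp, he'])
    have h3 : ‖(x : ℂ) + e * I - x‖ ^ 2 / ((x : ℂ) + e * I).im = e := by
      simp [abs_of_pos he']
      field_simp
    rwa [h3] at h2

end LW242
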