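import Pool.Agent.Y242.LW.TK1

/-! Toolkit, part 2: Julia–Wolff–Carathéodory, splitting, dilation. -/

open Set Filter Topology Complex Metric

noncomputable section

namespace LW242

theorem nti_norm (M : ℝ) : Tendsto (fun z : ℂ => ‖z‖) (NTI M) atTop :=
  tendsto_comap.mono_left inf_le_left

theorem nti_mem (M : ℝ) : ∀ᶠ z in NTI M, 0 < z.im ∧ ‖z‖ ≤ M * z.im :=
  Filter.eventually_inf_principal.2 (Eventually.of_forall fun _ h => h)

/-- Julia–Wolff–Carathéodory at infinity -/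
theorem jwc : S_JWC := by
  intro h hd hi
  set S : Set ℝ := (fun z : ℂ => (h z).im / z.im) '' Hp with hS
  have hne : S.Nonempty := ⟨_, I, I_mem_hp, rfl⟩
  have hbd : BddBelow S := ⟨0, by
    rintro _ ⟨z, hz, rfl⟩
    exact div_nonneg (hi z hz) (le_of_lt hz)⟩
  set c := sInf S with hc
  have hc0 : 0 ≤ c := le_csInf hne (by
    rintro _ ⟨z, hz, rfl⟩
    exact div_nonneg (hi z hz) (le_of_lt hz))
  have hcle : ∀ z ∈ Hp, c * z.im ≤ (h z).im := by
    intro z hz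
    have hz' : 0 < z.im := hz
    have : c ≤ (h z).im / z.im := csInf_le hbd ⟨z, hz, rfl⟩
    rwa [le_div_iff₀ hz'] at this
  refine ⟨c, hc0, hcle, fun M => ?_⟩
  set N : ℂ → ℂ := fun z => h z - c * z with hN
  have hNd : DifferentiableOn ℂ N Hp := hd.sub (by fun_prop)
  have hNi : ∀ z ∈ Hp, 0 ≤ (N z).im := by
    intro z hz
    have := hcle z hz
    simp [hN]
    linarith
  rw [Metric.tendsto_nhds]
  intro δ hδ
  set K : ℝ := |M| + 1 with hK
  have hKpos : 0 < K := by positivity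
  set ε : ℝ := δ / (8 * K) with hε
  have hεpos : 0 < ε := by positivity
  obtain ⟨r, hrS, hr⟩ := exists_lt_of_csInf_lt hne (show sInf S < c + ε by linarith)
  obtain ⟨z0, hz0, rfl⟩ := hrS
  have hz0' : 0 < z0.im := hz0
  simp only at hr
  rw [div_lt_iff₀ hz0'] at hr
  have hN0 : (N z0).im ≤ ε * z0.im := by
    simp [hN]
    nlinarith
  filter_upwards [nti_mem M, (nti_norm M).eventually_ge_atTop (‖z0‖ + 1),
    (nti_norm M).eventually_ge_atTop (8 * ‖N z0‖ / δ + 1)] with z hz hz1 hz2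
  obtain ⟨hzi, hzM⟩ := hz
  have hzn : 0 < ‖z‖ := by have := norm_nonneg z0; linarith
  have hzne : z ≠ 0 := norm_pos_iff.1 hzn
  have hzK : ‖z‖ ≤ K * z.im := hzM.trans (by
    apply mul_le_mul_of_nonneg_right _ hzi.le
    have := le_abs_self M
    linarith)
  have h1 := sp N hNd hNi z hzi z0 hz0
  have h2 : ‖N z - N z0‖ ^ 2 * z.im ≤ ε * ‖z - z0‖ ^ 2 * ‖N z‖ := by
    have h3 : (N z).im ≤ ‖N z‖ := (le_abs_self _).trans (Complex.abs_im_le_norm _)
    have h4 : ‖z - z0‖ ^ 2 * (N z).im * (N z0).im ≤ ‖z - z0‖ ^ 2 * ‖N z‖ * (ε * z0.im) := by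
      have := hNi z hzi
      have := hNi z0 hz0
      gcongr
    have h5 : ‖N z - N z0‖ ^ 2 * z.im * z0.im ≤ (ε * ‖z - z0‖ ^ 2 * ‖N z‖) * z0.im := by
      calc _ ≤ _ := h1
        _ ≤ _ := h4
        _ = _ := by ring
    exact le_of_mul_le_mul_right h5 hz0'
  have h6 : ‖z - z0‖ ≤ 2 * ‖z‖ := by
    have := norm_sub_le z z0
    linarith
  have h7 : ‖N z - N z0‖ ^ 2 * ‖z‖ ≤ 4 * ε * K * ‖z‖ ^ 2 * ‖N z‖ := by
    have h8 : ‖N z - N z0‖ ^ 2 * ‖z‖ ≤ ‖N z - N z0‖ ^ 2 * (K * z.im) := by gcongr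
    have h9 : ε * ‖z - z0‖ ^ 2 * ‖N z‖ ≤ ε * (2 * ‖z‖) ^ 2 * ‖N z‖ := by gcongr
    calc _ ≤ K * (‖N z - N z0‖ ^ 2 * z.im) := by linarith
      _ ≤ K * (ε * (2 * ‖z‖) ^ 2 * ‖N z‖) := by
        apply mul_le_mul_of_nonneg_left (h2.trans h9) hKpos.le
      _ = _ := by ring
  have h10 : ‖N z - N z0‖ ^ 2 ≤ 4 * ε * K * ‖z‖ * ‖N z‖ := by
    have : ‖N z - N z0‖ ^ 2 * ‖z‖ ≤ (4 * ε * K * ‖z‖ * ‖N z‖) * ‖z‖ := by
      calc _ ≤ _ := h7
        _ = _ := by ring
    exact le_of_mul_le_mul_right this hzn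
  have h11 : (‖N z‖ - ‖N z0‖) ^ 2 ≤ ‖N z - N z0‖ ^ 2 := by
    have h12 := abs_norm_sub_norm_le (N z) (N z0)
    rw [← sq_abs]
    exact pow_le_pow_left₀ (abs_nonneg _) h12 2
  have h13 : ‖N z‖ ≤ 2 * ‖N z0‖ + 4 * ε * K * ‖z‖ := by
    rcases (norm_nonneg (N z)).eq_or_lt with h0 | h0
    · rw [← h0]
      positivity
    · have h14 : ‖N z‖ * ‖N z‖ ≤ (2 * ‖N z0‖ + 4 * ε * K * ‖z‖) * ‖N z‖ := by
        nlinarith [sq_nonneg ‖N z0‖]
      exact le_of_mul_le_mul_right h14 h0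
  have h15 : h z / z - c = N z / z := by
    simp only [hN]
    field_simp
  rw [dist_eq_norm, h15, norm_div, div_lt_iff₀ hzn]
  have h16 : 4 * ε * K = δ / 2 := by
    rw [hε]; field_simp; norm_num
  rw [h16] at h13
  have h17 : 2 * ‖N z0‖ < δ / 2 * ‖z‖ := by
    have h18 : 8 * ‖N z0‖ / δ < ‖z‖ := by linarith
    rw [div_lt_iff₀ hδ] at h18
    have := norm_nonneg (N z0)
    nlinarith
  linarith

/-- one point of a vertical sequence -/
theorem vert_mem (x : ℝ) {e : ℝ} (he : 0 < e) : (x : ℂ) + e * I ∈ Hp := by simp [Hp, he]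

theorem vert_tendsto (x : ℝ) : Tendsto (fun e : ℝ => (x : ℂ) + e * I) (𝓝 0) (𝓝 (x : ℂ)) := by
  have : Tendsto (fun e : ℝ => (x : ℂ) + e * I) (𝓝 0) (𝓝 ((x : ℂ) + ((0 : ℝ) : ℂ) * I)) := by
    apply Continuous.tendsto
    fun_prop
  simpa using this

/-- along the vertical line -/
theorem jul_vert {h : ℂ → ℂ} {x ξ C : ℝ} (hm : MapsTo h Hp Hp) (hJ : Jul h x ξ C) {e : ℝ}
    (he : 0 < e) : ‖h (x + e * I) - (ξ : ℂ)‖ ≤ C * e := by
  have h2 := (jbd h x ξ C hm hJ).2.1 (x + e * I) (vert_mem x he)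
  have h3 : ‖(x : ℂ) + e * I - x‖ ^ 2 / ((x : ℂ) + e * I).im = e := by
    simp [abs_of_pos he]
    field_simp
  rwa [h3] at h2

theorem jul_vert_im {h : ℂ → ℂ} {x ξ C : ℝ} (hm : MapsTo h Hp Hp) (hJ : Jul h x ξ C) {e : ℝ}
    (he : 0 < e) : (h (x + e * I)).im ≤ C * e := by
  have h1 := jul_vert hm hJ he
  have h2 := Complex.abs_im_le_norm (h (x + e * I) - (ξ : ℂ))
  simp at h2
  exact (le_abs_self _).trans (h2.trans h1)

theorem split : S_SPLIT := by
  intro f g φ x ξ C hfd hgd hfm hgm hfi hgi hcomp hJ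
  have hφm : MapsTo φ Hp Hp := fun z hz => by rw [← hcomp z hz]; exact hfm (hgm hz)
  obtain ⟨hC, -, hlim⟩ := jbd φ x ξ C hφm hJ
  set e : ℕ → ℝ := fun k => 1 / ((k : ℝ) + 1) with he
  have hepos : ∀ k, 0 < e k := fun k => by rw [he]; positivity
  have hele : ∀ k, e k ≤ 1 := fun k => by
    rw [he]; simp only
    rw [div_le_one (by positivity)]
    have : (0 : ℝ) ≤ k := Nat.cast_nonneg k
    linarith
  have he0 : Tendsto e atTop (𝓝 0) := tendsto_one_div_add_atTop_nhds_zero_nat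
  set p : ℕ → ℂ := fun k => (x : ℂ) + e k * I with hp
  have hpm : ∀ k, p k ∈ Hp := fun k => vert_mem x (hepos k)
  have hpi : ∀ k, (p k).im = e k := fun k => by simp [hp]
  set w : ℕ → ℂ := fun k => g (p k) with hw
  have hwm : ∀ k, w k ∈ Hp := fun k => hgm (hpm k)
  set r : ℕ → ℝ := fun k => (w k).im / e k with hr
  have hwle : ∀ k, (w k).im ≤ C * e k := by
    intro k
    have h1 := hfi (w k) (hwm k)
    have h2 : f (w k) = φ (p k) := hcomp _ (hpm k)
    rw [h2] at h1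
    exact h1.trans (jul_vert_im hφm hJ (hepos k))
  have hr1 : ∀ k, 1 ≤ r k := by
    intro k
    rw [hr]; simp only
    rw [le_div_iff₀ (hepos k), one_mul]
    have := hgi (p k) (hpm k)
    rwa [hpi] at this
  have hrC : ∀ k, r k ≤ C := by
    intro k
    rw [hr]; simp only
    rw [div_le_iff₀ (hepos k)]
    exact hwle k
  -- boundedness
  set a : ℂ := g (x + I) with ha
  have hxI : (x : ℂ) + I ∈ Hp := by simp [Hp]
  have ham : 0 < a.im := hgm hxI
  have hwb : ∀ k, ‖a - w k‖ ^ 2 ≤ C * a.im := by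
    intro k
    have h1 := sp g hgd (fun z hz => le_of_lt (hgm hz)) (x + I) hxI (p k) (hpm k)
    have h2 : ‖(x : ℂ) + I - p k‖ ≤ 1 := by
      have : (x : ℂ) + I - p k = ((1 - e k : ℝ) : ℂ) * I := by simp [hp]; ring
      rw [this, norm_mul, Complex.norm_I, mul_one, Complex.norm_real, Real.norm_eq_abs,
        abs_of_nonneg (by linarith [hele k])]
      linarith [hepos k]
    rw [hpi] at h1
    have h3 : ((x : ℂ) + I).im = 1 := by simp
    rw [h3, mul_one] at h1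
    have h4 : 0 ≤ (w k).im := le_of_lt (hwm k)
    have h5 : ‖(x : ℂ) + I - p k‖ ^ 2 * a.im * (w k).im ≤ 1 ^ 2 * a.im * (C * e k) := by
      gcongr
      exact hwle k
    have h6 : ‖a - w k‖ ^ 2 * e k ≤ (C * a.im) * e k := by
      calc _ ≤ _ := h1
        _ ≤ _ := h5
        _ = _ := by ring
    exact le_of_mul_le_mul_right h6 (hepos k)
  have hcpt : IsCompact (closedBall a (Real.sqrt (C * a.im)) ×ˢ Icc (1 : ℝ) C) :=
    (isCompact_closedBall _ _).prod isCompact_Icc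
  have hmem : ∀ k, (w k, r k) ∈ closedBall a (Real.sqrt (C * a.im)) ×ˢ Icc (1 : ℝ) C := by
    intro k
    refine ⟨?_, hr1 k, hrC k⟩
    rw [mem_closedBall, dist_comm, dist_eq_norm]
    exact Real.le_sqrt_of_sq_le (hwb k)
  obtain ⟨⟨w0, r0⟩, hwr, σ, hσ, hlimσ⟩ := hcpt.tendsto_subseq hmem
  have hw0 : Tendsto (fun k => w (σ k)) atTop (𝓝 w0) := (continuous_fst.tendsto _).comp hlimσ
  have hr0 : Tendsto (fun k => r (σ k)) atTop (𝓝 r0) := (continuous_snd.tendsto _).comp hlimσ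
  have heσ : Tendsto (fun k => e (σ k)) atTop (𝓝 0) := he0.comp hσ.tendsto_atTop
  have hw0r : w0.im = 0 := by
    have h1 : Tendsto (fun k => (w (σ k)).im) atTop (𝓝 w0.im) :=
      (Complex.continuous_im.tendsto _).comp hw0
    have h2 : Tendsto (fun k => r (σ k) * e (σ k)) atTop (𝓝 (r0 * 0)) := hr0.mul heσ
    have h3 : (fun k => r (σ k) * e (σ k)) = fun k => (w (σ k)).im := by
      funext k
      rw [hr]; simp only
      rw [div_mul_cancel₀ _ (hepos _).ne']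
    rw [h3, mul_zero] at h2
    exact tendsto_nhds_unique h1 h2
  have hw0e : w0 = ((w0.re : ℝ) : ℂ) := by
    apply Complex.ext <;> simp [hw0r]
  have hr01 : 1 ≤ r0 := hwr.2.1
  have hr0C : r0 ≤ C := hwr.2.2
  have hr0pos : 0 < r0 := by linarith
  have hpx : Tendsto (fun k => p (σ k)) atTop (𝓝 (x : ℂ)) := (vert_tendsto x).comp heσ
  refine ⟨w0.re, r0, C / r0, hr01, ?_, ?_, ?_, ?_⟩
  · rw [le_div_iff₀ hr0pos]; linarith
  · field_simp
  · apply jfin g x w0.re r0 (fun k => p (σ k)) (fun k => r (σ k)) hgd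
      (fun z hz => le_of_lt (hgm hz)) (fun k => hpm _) hpx
    · rw [← hw0e]; exact hw0
    · intro k
      rw [hpi, hr]
      simp only
      rw [div_mul_cancel₀ _ (hepos _).ne']
    · exact hr0
  · apply jfin f w0.re ξ (C / r0) (fun k => w (σ k)) (fun k => C / r (σ k)) hfd
      (fun z hz => le_of_lt (hfm hz)) (fun k => hwm _)
    · rw [← hw0e]; exact hw0
    · have h1 : Tendsto (fun k => φ (p (σ k))) atTop (𝓝 (ξ : ℂ)) := by
        apply hlim.comp
        apply tendsto_nhdsWithin_iff.2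
        exact ⟨heσ, Eventually.of_forall fun k => hepos _⟩
      refine h1.congr fun k => ?_
      exact (hcomp _ (hpm _)).symm
    · intro k
      have h2 : f (w (σ k)) = φ (p (σ k)) := hcomp _ (hpm _)
      rw [h2]
      have h3 := jul_vert_im hφm hJ (hepos (σ k))
      have h4 : C / r (σ k) * (w (σ k)).im = C * e (σ k) := by
        rw [hr]; simp only
        have h5 : 0 < (w (σ k)).im := hwm (σ k)
        have h6 := h5.ne'
        have h7 := (hepos (σ k)).ne'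
        field_simp
      rw [h4]
      exact h3
    · exact tendsto_const_nhds.div hr0 hr0pos.ne'

end LW242
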