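import Pool.Agent.Y242.LW.TK2

/-! Toolkit, part 3: the dilation. -/

open Set Filter Topology Complex Metric

noncomputable section

namespace LW242

theorem hp_sub_pos {x : ℝ} {z : ℂ} (hz : z ∈ Hp) : 0 < ‖z - (x : ℂ)‖ := by
  rw [norm_pos_iff]
  intro h
  have h1 : (z - (x : ℂ)).im = 0 := by rw [h]; simp
  simp at h1
  have : 0 < z.im := hz
  linarith

theorem jul_mono {h : ℂ → ℂ} {x ξ C C' : ℝ} (hm : MapsTo h Hp Hp) (hJ : Jul h x ξ C)
    (hC : C ≤ C') : Jul h x ξ C' := by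
  intro z hz
  refine (hJ z hz).trans ?_
  have : 0 < (h z).im := hm hz
  gcongr

theorem dil_bdd {f : ℂ → ℂ} {x C : ℝ} (hm : MapsTo f Hp Hp) (hJ : Jul f x x C) :
    ∀ r ∈ {r : ℝ | ∃ z ∈ Hp, r = z.im * ‖f z - (x : ℂ)‖ ^ 2 / ((f z).im * ‖z - (x : ℂ)‖ ^ 2)},
      r ≤ C := by
  rintro r ⟨z, hz, rfl⟩
  have h1 : 0 < (f z).im := hm hz
  have h2 := hp_sub_pos (x := x) hz
  rw [div_le_iff₀ (by positivity)]
  have := hJ z hz
  linarith

theorem dil_jul {f : ℂ → ℂ} {x C : ℝ} (hm : MapsTo f Hp Hp) (hJ : Jul f x x C) :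
    Jul f x x (dil f x) := by
  intro z hz
  have h1 : 0 < (f z).im := hm hz
  have h2 := hp_sub_pos (x := x) hz
  have h3 : z.im * ‖f z - (x : ℂ)‖ ^ 2 / ((f z).im * ‖z - (x : ℂ)‖ ^ 2) ≤ dil f x :=
    le_csSup ⟨C, dil_bdd hm hJ⟩ ⟨z, hz, rfl⟩
  rw [div_le_iff₀ (by positivity)] at h3
  linarith

theorem dil_le {f : ℂ → ℂ} {x C : ℝ} (hm : MapsTo f Hp Hp) (hJ : Jul f x x C) :
    dil f x ≤ C :=
  csSup_le ⟨_, I, I_mem_hp, rfl⟩ (dil_bdd hm hJ)

theorem jul_comp {f g : ℂ → ℂ} {x ζ ξ C D : ℝ} (hfm : MapsTo f Hp Hp) (hgm : MapsTo g Hp Hp)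
    (hg : Jul g x ζ C) (hf : Jul f ζ ξ D) : Jul (fun z => f (g z)) x ξ (D * C) := by
  intro z hz
  have h1 : 0 < (g z).im := hgm hz
  have h2 : 0 < (f (g z)).im := hfm (hgm hz)
  have hz' : 0 < z.im := hz
  have h3 := hf (g z) (hgm hz)
  have h4 := hg z hz
  have hD : 0 < D := (jbd f ζ ξ D hfm hf).1
  have h5 : (z.im * ‖f (g z) - (ξ : ℂ)‖ ^ 2) * (g z).im ≤
      (D * C * (f (g z)).im * ‖z - (x : ℂ)‖ ^ 2) * (g z).im := by
    calc (z.im * ‖f (g z) - (ξ : ℂ)‖ ^ 2) * (g z).im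
        = z.im * ((g z).im * ‖f (g z) - (ξ : ℂ)‖ ^ 2) := by ring
      _ ≤ z.im * (D * (f (g z)).im * ‖g z - (ζ : ℂ)‖ ^ 2) := by gcongr
      _ = (D * (f (g z)).im) * (z.im * ‖g z - (ζ : ℂ)‖ ^ 2) := by ring
      _ ≤ (D * (f (g z)).im) * (C * (g z).im * ‖z - (x : ℂ)‖ ^ 2) := by gcongr
      _ = _ := by ring
  exact le_of_mul_le_mul_right h5 h1

theorem jul_unique {g : ℂ → ℂ} {x ζ ζ' C C' : ℝ} (hm : MapsTo g Hp Hp) (h : Jul g x ζ C)
    (h' : Jul g x ζ' C') : ζ = ζ' := by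
  have h1 := (jbd g x ζ C hm h).2.2
  have h2 := (jbd g x ζ' C' hm h').2.2
  exact_mod_cast tendsto_nhds_unique h1 h2

theorem dil_thm : S_DIL := by
  intro f x ⟨⟨hfd, hfm, hfi⟩, hfI, C, hJ⟩
  have hJd := dil_jul hfm hJ
  have h1 : 1 ≤ dil f x := by
    have h2 := jul_vert_im hfm hJd (e := 1) one_pos
    have h3 := hfI _ (vert_mem x (e := 1) one_pos)
    have h4 : ((x : ℂ) + (1 : ℝ) * I).im = 1 := by simp
    rw [h4] at h3
    linarith
  have hbound : ∀ z ∈ Hp, ‖f z - z‖ ≤ (dil f x - 1) * (‖z - (x : ℂ)‖ ^ 2 / z.im) := by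
    set N : ℂ → ℂ := fun z => f z - z with hN
    have hNd : DifferentiableOn ℂ N Hp := hfd.sub differentiableOn_id
    have hNi : ∀ z ∈ Hp, 0 ≤ (N z).im := by
      intro z hz
      have := hfI z hz
      simp [hN]; linarith
    set e : ℕ → ℝ := fun k => 1 / ((k : ℝ) + 1) with he
    have hepos : ∀ k, 0 < e k := fun k => by rw [he]; positivity
    have he0 : Tendsto e atTop (𝓝 0) := tendsto_one_div_add_atTop_nhds_zero_nat
    have hp : Tendsto (fun k => (x : ℂ) + e k * I) atTop (𝓝 (x : ℂ)) := (vert_tendsto x).comp he0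
    have hNJ : Jul N x 0 (dil f x - 1) := by
      apply jfin N x 0 (dil f x - 1) (fun k => (x : ℂ) + e k * I) (fun _ => dil f x - 1) hNd hNi
        (fun k => vert_mem x (hepos k)) hp
      · have h5 : Tendsto (fun k => f ((x : ℂ) + e k * I)) atTop (𝓝 (x : ℂ)) := by
          apply (jbd f x x _ hfm hJd).2.2.comp
          apply tendsto_nhdsWithin_iff.2
          exact ⟨he0, Eventually.of_forall fun k => hepos _⟩
        have := h5.sub hp
        simpa [hN] using this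
      · intro k
        have h6 := jul_vert_im hfm hJd (hepos k)
        have h7 : ((x : ℂ) + e k * I).im = e k := by simp
        simp only [hN, Complex.sub_im, h7]
        linarith
      · exact tendsto_const_nhds
    intro z hz
    have hz' : 0 < z.im := hz
    have h8 := hNJ z hz
    have h9 : (N z).im ≤ ‖N z‖ := (le_abs_self _).trans (Complex.abs_im_le_norm _)
    simp only [Complex.ofReal_zero, sub_zero] at h8
    have h10 : (dil f x - 1) * (N z).im * ‖z - (x : ℂ)‖ ^ 2 ≤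
        (dil f x - 1) * ‖N z‖ * ‖z - (x : ℂ)‖ ^ 2 := by
      have : 0 ≤ dil f x - 1 := by linarith
      gcongr
    rw [mul_div_assoc', le_div_iff₀ hz']
    rcases (norm_nonneg (N z)).eq_or_lt with h0 | h0
    · rw [hN] at h0
      simp only at h0
      rw [← h0, zero_mul]
      have : 0 ≤ dil f x - 1 := by linarith
      positivity
    · have h11 : (‖N z‖ * z.im) * ‖N z‖ ≤ ((dil f x - 1) * ‖z - (x : ℂ)‖ ^ 2) * ‖N z‖ := by
        nlinarith
      exact le_of_mul_le_mul_right h11 h0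
  refine ⟨h1, hJd, fun C hC => dil_le hfm hC, ?_, hbound, ?_⟩
  · intro h2 z hz
    have h3 := hbound z hz
    rw [h2, sub_self, zero_mul] at h3
    exact sub_eq_zero.1 (norm_le_zero_iff.1 h3)
  · rintro g ⟨⟨hgd, hgm, hgi⟩, hgI, D, hgJ⟩
    have hgJd := dil_jul hgm hgJ
    have hcJ := jul_comp hfm hgm hgJd hJd
    have hcm : MapsTo (fun z => f (g z)) Hp Hp := fun z hz => hfm (hgm hz)
    have hFA : FixAdm (fun z => f (g z)) x := by
      refine ⟨⟨hfd.comp hgd hgm, hcm, ?_⟩, ?_, _, hcJ⟩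
      · intro a ha b hb hab
        exact hgi ha hb (hfi (hgm ha) (hgm hb) hab)
      · intro z hz
        exact (hgI z hz).trans (hfI _ (hgm hz))
    refine ⟨hFA, le_antisymm (dil_le hcm hcJ) ?_⟩
    have hcd := dil_jul hcm hcJ
    obtain ⟨ζ, C1, C2, hC1, hC2, hC12, hj1, hj2⟩ := split f g (fun z => f (g z)) x x _ hfd hgd hfm
      hgm hfI hgI (fun _ _ => rfl) hcd
    have hζ : ζ = x := jul_unique hgm hj1 hgJ
    subst hζ
    have h5 : dil g ζ ≤ C1 := dil_le hgm hj1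
    have h6 : dil f ζ ≤ C2 := dil_le hfm hj2
    have h7 : 0 ≤ dil g ζ := by
      have h2 := jul_vert_im hgm hgJd (e := 1) one_pos
      have h3 := hgI _ (vert_mem ζ (e := 1) one_pos)
      have h4 : ((ζ : ℂ) + (1 : ℝ) * I).im = 1 := by simp
      rw [h4] at h3
      linarith
    rw [← hC12, mul_comm C1 C2]
    gcongr

end LW242
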